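import Pool.Agent.H23.GLM.Defs
import Pool.Agent.H23.DZ.Far

/-!
# Definitions for the statement about means of `log |L|`
-/

set_option autoImplicit false

open Complex

namespace Pool.Agent.H26.MQ

open Pool.Agent.H23.GLM

/-- The Poisson mean `π⁻¹ ∫ log |g(1/2 + i(t + y))| c / (c² + y²) dy` at height `t`. -/
noncomputable def logMean (g : ℂ → ℂ) (c t : ℝ) : ℝ :=
  Real.pi⁻¹ * ∫ y : ℝ, c / (c ^ 2 + y ^ 2) * Real.log ‖g (1 / 2 + (t + y) * I)‖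

/-- Multipliers: functions which are analytic and of polynomial growth in `Re s ≥ 1/2`. -/
def Multiplier (M : ℂ → ℂ) : Prop :=
  AnalyticOnNhd ℂ M {s | 1 / 2 ≤ s.re} ∧
    ∃ (B : ℝ) (k : ℕ), ∀ s : ℂ, 1 / 2 ≤ s.re → ‖M s‖ ≤ B * (1 + ‖s‖) ^ k

end Pool.Agent.H26.MQ
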