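import Pool.Agent.H26.MQ.App
import Pool.Agent.H26.MQ.Stmt

/-! The Poisson means of `log |L|` and of `log |LM|`. -/

set_option autoImplicit false

open MeasureTheory Set Filter Topology Complex

namespace Pool.Agent.H26.MQ

open Pool.Agent.H26.ML Pool.Agent.H23.GLM Pool.Agent.H23.GLH Pool.Agent.H23.DZ
open Pool.Agent.H61.Ray (norm_L_F)

variable {m : ℕ}

/-- For a multiplier the Poisson mean is at least the value at the centre. -/
lemma mult_mean {M : ℂ → ℂ} (hM : Multiplier M) {c t : ℝ} (hc : 0 < c)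
    (hne : M (1 / 2 + c + t * I) ≠ 0) :
    Integrable (fun y : ℝ => poi c y * Real.log ‖M (1 / 2 + (t + y) * I)‖) ∧
      Real.log ‖M (1 / 2 + c + t * I)‖ ≤ logMean M c t ∧
      ∀ᵐ y : ℝ, M (1 / 2 + (t + y) * I) ≠ 0 := by
  obtain ⟨hMa, B, k, hMg⟩ := hM
  have hπ := Real.pi_pos
  set g : ℂ → ℂ := fun z => M (1 / 2 + t * I + z) with hg
  have hre : ∀ z : ℂ, (1 / 2 + t * I + z).re = 1 / 2 + z.re := by intro z; simp
  have hga : AnalyticOnNhd ℂ g {z | 0 ≤ z.re} := by
    intro z hz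
    have hz' : 0 ≤ z.re := hz
    have h1 : AnalyticAt ℂ M (1 / 2 + t * I + z) := hMa _ (by
      show 1 / 2 ≤ (1 / 2 + t * I + z).re
      rw [hre]; linarith)
    exact h1.fun_comp (f := fun z : ℂ => 1 / 2 + t * I + z) (by fun_prop)
  set A : ℝ := max 1 (|B| * (2 + |t|) ^ k) with hA
  have hgg : ∀ z : ℂ, 0 ≤ z.re → ‖g z‖ ≤ A * (1 + ‖z‖) ^ (k : ℝ) := by
    intro z hz
    have h1 := hMg (1 / 2 + t * I + z) (by rw [hre]; linarith)
    have ht := abs_nonneg t
    have hz0 := norm_nonneg z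
    have h2 : 1 + ‖(1 / 2 + t * I + z : ℂ)‖ ≤ (2 + |t|) * (1 + ‖z‖) := by
      have h3 : ‖(1 / 2 + t * I + z : ℂ)‖ ≤ 1 / 2 + |t| + ‖z‖ := by
        refine (norm_add_le _ _).trans ?_
        refine add_le_add_left ((norm_add_le _ _).trans ?_) _
        rw [norm_mul, Complex.norm_I, mul_one, Complex.norm_real, Real.norm_eq_abs]
        norm_num
      nlinarith
    rw [Real.rpow_natCast]
    calc ‖g z‖ ≤ B * (1 + ‖(1 / 2 + t * I + z : ℂ)‖) ^ k := h1
      _ ≤ |B| * (1 + ‖(1 / 2 + t * I + z : ℂ)‖) ^ k := by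
          gcongr
          exact le_abs_self B
      _ ≤ |B| * ((2 + |t|) * (1 + ‖z‖)) ^ k := by gcongr
      _ = |B| * (2 + |t|) ^ k * (1 + ‖z‖) ^ k := by rw [mul_pow]; ring
      _ ≤ A * (1 + ‖z‖) ^ k := by
          gcongr
          exact le_max_right _ _
  have hgc : g c = M (1 / 2 + c + t * I) := by
    simp only [hg]
    congr 1
    ring
  obtain ⟨h1, h2⟩ := halfplane_jensen hc (le_max_left 1 _) (Nat.cast_nonneg k) hga hgg
    (by rw [hgc]; exact hne) ∅ (by simp)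
  rw [Finset.sum_empty, zero_add, hgc] at h2
  have hgu : ∀ u : ℝ, g (u * I) = M (1 / 2 + (t + u) * I) := by
    intro u
    simp only [hg]
    congr 1
    ring
  simp_rw [hgu] at h1 h2
  refine ⟨h1, ?_, ?_⟩
  · unfold logMean
    rw [← div_eq_inv_mul, le_div_iff₀ hπ]
    linarith
  · have h3 := line_ae_ne (convex_halfSpace_re_ge 0)
      (isClosed_le continuous_const Complex.continuous_re) hga (x := (c : ℂ))
      (by show (0 : ℝ) ≤ (c : ℂ).re; rw [Complex.ofReal_re]; exact hc.le)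
      (by rw [hgc]; exact hne) (a := 0) (by intro u; simp)
    filter_upwards [h3] with u hu
    rw [zero_add, hgu] at hu
    exact hu

/-- The means of `F` and of `L`. -/
lemma mean_F_L {S : Set (LData m)} {A σ : ℝ} (hA : 1 ≤ A) (hσ : 0 < σ)
    (hloc : ∀ π ∈ S, ∀ t : ℝ, Loc A σ m (Real.log (π.X t)) (fun z => π.F (1 / 2 + t * I + z)))
    {π : LData m} (hπ : π ∈ S) {c t : ℝ} (hc : 0 < c) :
    Integrable (fun y : ℝ => poi c y * Real.log ‖π.L (1 / 2 + (t + y) * I)‖) ∧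
      Real.pi⁻¹ * (∫ u, poi c u * bb (fun z => π.F (1 / 2 + t * I + z)) 0 u) ≤
        logMean π.L c t ∧ ∀ᵐ y : ℝ, π.L (1 / 2 + (t + y) * I) ≠ 0 := by
  have hpi := Real.pi_pos
  have hX1 := π.one_le_X t
  have hΛ : 0 ≤ Real.log (π.X t) := Real.log_nonneg hX1
  have hl := hloc π hπ t
  have hb := hl.meas (δ := 0) (by norm_num)
  have hi := hl.int hA hΛ hσ le_rfl (by norm_num : (0:ℝ) ≤ 1 / 4)
  have hbb : ∀ u : ℝ, bb (fun z => π.F (1 / 2 + t * I + z)) 0 u =
      Real.log ‖π.F (1 / 2 + (t + u) * I)‖ := by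
    intro u
    have e : (1 / 2 + t * I + (-((0 : ℝ) : ℂ) + u * I) : ℂ) = 1 / 2 + (t + u) * I := by
      rw [Complex.ofReal_zero]; ring
    show Real.log ‖π.F (1 / 2 + t * I + (-((0 : ℝ) : ℂ) + u * I))‖ = _
    rw [e]
  have hiF : Integrable fun u => poi c u * bb (fun z => π.F (1 / 2 + t * I + z)) 0 u := by
    have := UU_integrable hb hi hc 0
    refine this.congr ?_
    filter_upwards with u
    rw [zero_sub, poi_even]
  have hFne : ∀ᵐ y : ℝ, π.F (1 / 2 + (t + y) * I) ≠ 0 := by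
    have := hl.ae_ne (δ := 0) (by norm_num)
    have e : ∀ u : ℝ, (1 / 2 + t * I + (-((0 : ℝ) : ℂ) + u * I) : ℂ) = 1 / 2 + (t + u) * I := by
      intro u
      rw [Complex.ofReal_zero]; ring
    filter_upwards [this] with u hu
    rw [e] at hu
    exact hu
  have hFL : ∀ u : ℝ, ‖π.F (1 / 2 + (t + u) * I)‖ ≤ ‖π.L (1 / 2 + (t + u) * I)‖ ∧
      ‖π.L (1 / 2 + (t + u) * I)‖ ≤ 7 * ‖π.F (1 / 2 + (t + u) * I)‖ := fun u =>
    norm_L_F π (by simp; norm_num) (by simp; norm_num)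
  have hLne : ∀ᵐ y : ℝ, π.L (1 / 2 + (t + y) * I) ≠ 0 := by
    filter_upwards [hFne] with u hu h0
    have h1 := (hFL u).1
    rw [h0, norm_zero] at h1
    exact hu (norm_le_zero_iff.mp h1)
  have hcontL : Continuous fun y : ℝ => π.L (1 / 2 + (t + y) * I) := by
    have h1 := continuous_L_line π
    have h2 := h1.comp (continuous_const.add continuous_id : Continuous fun y : ℝ => t + y)
    refine h2.congr fun y => ?_
    simp
  have hdiff : ∀ᵐ u : ℝ, |Real.log ‖π.L (1 / 2 + (t + u) * I)‖ -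
      Real.log ‖π.F (1 / 2 + (t + u) * I)‖| ≤ Real.log 7 ∧
      Real.log ‖π.F (1 / 2 + (t + u) * I)‖ ≤ Real.log ‖π.L (1 / 2 + (t + u) * I)‖ := by
    filter_upwards [hFne] with u hu
    have h1 : 0 < ‖π.F (1 / 2 + (t + u) * I)‖ := norm_pos_iff.mpr hu
    obtain ⟨h2, h3⟩ := hFL u
    have h4 := Real.log_le_log h1 h2
    have h5 := Real.log_le_log (h1.trans_le h2) h3
    rw [Real.log_mul (by norm_num) h1.ne'] at h5
    refine ⟨?_, h4⟩
    rw [abs_of_nonneg (by linarith)]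
    linarith
  have hiL : Integrable (fun y : ℝ => poi c y * Real.log ‖π.L (1 / 2 + (t + y) * I)‖) := by
    have h1 : Integrable fun u => Real.log 7 * poi c u := (poi_integrable hc).const_mul _
    refine (hiF.norm.add h1).mono' ?_ ?_
    · exact ((poi_continuous hc).measurable.mul (Real.measurable_log.comp
        hcontL.norm.measurable)).aestronglyMeasurable
    · filter_upwards [hdiff] with u hu
      have h2 := poi_pos hc u
      simp only [Pi.add_apply]
      rw [hbb, norm_mul, norm_mul, Real.norm_of_nonneg h2.le]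
      have h3 := hu.1
      have h4 : ‖Real.log ‖π.L (1 / 2 + (t + u) * I)‖‖ ≤
          ‖Real.log ‖π.F (1 / 2 + (t + u) * I)‖‖ + Real.log 7 := by
        rw [Real.norm_eq_abs, Real.norm_eq_abs]
        have := abs_add_le (Real.log ‖π.L (1 / 2 + (t + u) * I)‖ -
          Real.log ‖π.F (1 / 2 + (t + u) * I)‖) (Real.log ‖π.F (1 / 2 + (t + u) * I)‖)
        rw [sub_add_cancel] at this
        linarith
      nlinarith
  refine ⟨hiL, ?_, hLne⟩
  unfold logMean
  have h6 : ∫ u, poi c u * bb (fun z => π.F (1 / 2 + t * I + z)) 0 u ≤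
      ∫ y : ℝ, c / (c ^ 2 + y ^ 2) * Real.log ‖π.L (1 / 2 + (t + y) * I)‖ := by
    refine integral_mono_ae hiF hiL ?_
    filter_upwards [hdiff] with u hu
    rw [hbb]
    have h2 := poi_pos hc u
    show poi c u * _ ≤ poi c u * _
    have h3 := hu.2
    gcongr
  gcongr

/-- The mean of `L` and of `LM`. -/
lemma mean_L_LM {L M : ℂ → ℂ} (hM : Multiplier M) {c t : ℝ} (hc : 0 < c)
    (hne : M (1 / 2 + c + t * I) ≠ 0)
    (hiL : Integrable (fun y : ℝ => poi c y * Real.log ‖L (1 / 2 + (t + y) * I)‖))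
    (hLne : ∀ᵐ y : ℝ, L (1 / 2 + (t + y) * I) ≠ 0) :
    logMean L c t ≤ logMean (fun s => L s * M s) c t - Real.log ‖M (1 / 2 + c + t * I)‖ := by
  obtain ⟨h1, h2, h3⟩ := mult_mean hM hc hne
  have h4 : logMean (fun s => L s * M s) c t = logMean L c t + logMean M c t := by
    unfold logMean
    rw [← mul_add]
    congr 1
    have h5 := integral_add hiL h1
    unfold poi at h5
    rw [← h5]
    refine integral_congr_ae ?_
    filter_upwards [hLne, h3] with y hy1 hy2
    have h6 : 0 < ‖L (1 / 2 + (t + y) * I)‖ := norm_pos_iff.mpr hy1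
    have h7 : 0 < ‖M (1 / 2 + (t + y) * I)‖ := norm_pos_iff.mpr hy2
    rw [norm_mul, Real.log_mul h6.ne' h7.ne']
    ring
  linarith

end Pool.Agent.H26.MQ
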