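import Pool.Agent.H26.ML.Poi

/-!
# A band limited averaging of circles: definitions and module targets

The density `pp` on `(0, ∞)` has the property that the uniform measure on the half circle of radius
`r` in the right half plane, averaged over `r` with the density `N pp(N r)` and swept to the
imaginary axis, has a density with Fourier transform `(1 - |ξ|/N)^3` on `[-N, N]` and `0` outside.
-/

set_option autoImplicit false

open MeasureTheory Set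

namespace Pool.Agent.H26.MQ

open Pool.Agent.H26.ML

/-- The density, `pp r = 3 ∫_0^1 ξ (1 - ξ)^2 sin (r ξ) dξ`. -/
noncomputable def pp (r : ℝ) : ℝ := 6 * (2 * r + r * Real.cos r - 3 * Real.sin r) / r ^ 4

/-- `∫ exp (-s e^{iθ}) dθ` over `[-π/2, π/2]`. -/
noncomputable def jj (s : ℝ) : ℝ :=
  ∫ θ in (-(Real.pi / 2))..(Real.pi / 2), Real.exp (-(s * Real.cos θ)) * Real.cos (s * Real.sin θ)

/-- The Poisson kernel of the half plane `Re z > -δ` with pole `-δ + iu`, integrated over the half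
circle of radius `r` around `0`. -/
noncomputable def arc (δ u r : ℝ) : ℝ :=
  ∫ θ in (-(Real.pi / 2))..(Real.pi / 2), poi (r * Real.cos θ + δ) (r * Real.sin θ - u)

/-- The kernel on the line `Re z = x`. -/
noncomputable def gk (x N y : ℝ) : ℝ :=
  Real.pi⁻¹ * ∫ ξ in (0 : ℝ)..N, (1 - ξ / N) ^ 3 * Real.exp (x * ξ) * Real.cos (ξ * y)

/-- Poisson integral over the line `Re z = -δ` at the point `x + iy`. -/
noncomputable def UU (δ : ℝ) (b : ℝ → ℝ) (x y : ℝ) : ℝ :=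
  Real.pi⁻¹ * ∫ u, poi (x + δ) (y - u) * b u

/-! ### Targets -/

/-- PC. The Fourier transform of the Poisson kernel. -/
def T_PC : Prop := ∀ c ξ v : ℝ, 0 < c → 0 ≤ ξ →
  Integrable (fun u => poi c (v - u) * Real.cos (ξ * u)) ∧
  ∫ u, poi c (v - u) * Real.cos (ξ * u) = Real.pi * Real.exp (-(c * ξ)) * Real.cos (ξ * v)

/-- SG. The semigroup property. -/
def T_SG : Prop := ∀ a c u : ℝ, 0 < a → 0 < c →
  Integrable (fun y => poi a (y - u) * poi c y) ∧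
  ∫ y, poi a (y - u) * poi c y = Real.pi * poi (a + c) u

/-- PB. Elementary facts on the density. -/
def T_PB : Prop :=
  (∀ r : ℝ, 0 ≤ r → 0 ≤ pp r) ∧ (∀ r : ℝ, 0 ≤ r → pp r ≤ r) ∧ (∀ r : ℝ, 0 < r → pp r ≤ 36 / r ^ 3) ∧
  (∀ r : ℝ, pp (-r) = -pp r) ∧ Continuous pp ∧ Integrable pp ∧
  IntegrableOn (fun r => r * pp r) (Ioi 0) ∧
  (∀ r : ℝ, pp r = 3 * ∫ ξ in (0 : ℝ)..1, ξ * (1 - ξ) ^ 2 * Real.sin (r * ξ))

/-- PS. The sine transform of the density (Fourier inversion). -/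
def T_PS : Prop := ∀ η : ℝ, 0 ≤ η →
  ∫ r in Ioi (0 : ℝ), pp r * Real.sin (η * r) = 3 * Real.pi / 2 * η * (max (1 - η) 0) ^ 2

/-- JD. The function `jj`. -/
def T_JD : Prop :=
  (jj 0 = Real.pi) ∧ (∀ s : ℝ, 0 ≤ s → |jj s| ≤ Real.pi) ∧ Continuous jj ∧
  Filter.Tendsto jj Filter.atTop (nhds 0) ∧
  (∀ ξ r : ℝ, 0 < ξ → 0 < r →
    jj (ξ * r) = Real.pi - 2 * ∫ η in (0 : ℝ)..ξ, Real.sin (η * r) / η)

/-- JP. The averages of `jj` and the mass of the density. -/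
def T_JP : Prop :=
  (∫ r in Ioi (0 : ℝ), pp r = 1) ∧
  ∀ ξ : ℝ, 0 ≤ ξ → ∫ r in Ioi (0 : ℝ), pp r * jj (ξ * r) = Real.pi * (max (1 - ξ) 0) ^ 3

/-- AK. The swept kernel. -/
def T_AK : Prop := ∀ δ u N : ℝ, 0 < δ → 0 < N →
  IntegrableOn (fun r => N * pp (N * r) * arc δ u r) (Ioi 0) ∧
  ∫ r in Ioi (0 : ℝ), N * pp (N * r) * arc δ u r =
    Real.pi * ∫ ξ in (0 : ℝ)..N, (1 - ξ / N) ^ 3 * Real.exp (-(δ * ξ)) * Real.cos (ξ * u)

/-- GB. The size of the kernel `gk`. -/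
def T_GB : Prop := ∀ X : ℝ, ∃ C : ℝ, 0 ≤ C ∧ ∀ x N y : ℝ, 0 ≤ x → x ≤ X → 1 ≤ N →
  |gk x N y| ≤ C * Real.exp ((X + 1) * N) * poi 1 y

/-- GC. `gk` is continuous. -/
def T_GC : Prop := ∀ x N : ℝ, 0 < N → Continuous (gk x N)

/-- GK. The Poisson integral of `gk`. -/
def T_GK : Prop := ∀ x δ N u : ℝ, 0 < x → 0 < δ → 0 < N →
  ∫ y, gk x N y * poi (x + δ) (y - u) =
    ∫ ξ in (0 : ℝ)..N, (1 - ξ / N) ^ 3 * Real.exp (-(δ * ξ)) * Real.cos (ξ * u)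

/-- TL. The part `r > 1/4` is small. -/
def T_TL : Prop := ∃ C : ℝ, 0 ≤ C ∧ ∀ δ u N : ℝ, 0 < δ → δ ≤ 1 → 1 ≤ N →
  ∫ r in Ioi (1 / 4 : ℝ), N * pp (N * r) * arc δ u r ≤ C / N ^ 2 * poi 1 u

/-- KT. The average of a Poisson integral over half circles. -/
def T_KT : Prop := ∀ X : ℝ, ∃ C : ℝ, 0 ≤ C ∧ ∀ (x δ N m : ℝ) (b : ℝ → ℝ), 0 < x → x ≤ X → 0 < δ →
  δ ≤ 1 → 1 ≤ N → 0 ≤ m → Measurable b → Integrable (fun u => poi 1 u * b u) →
  (∀ y : ℝ, -m ≤ UU δ b x y) →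
  ∫ r in (0 : ℝ)..(1 / 4), N * pp (N * r) * (Real.pi⁻¹ *
      ∫ θ in (-(Real.pi / 2))..(Real.pi / 2), UU δ b (r * Real.cos θ) (r * Real.sin θ)) ≤
    C * Real.exp (C * N) * (UU δ b (x + 1) 0 + 2 * m) + C / N ^ 2 * ∫ u, poi 1 u * |b u|

end Pool.Agent.H26.MQ
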