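import Pool.Agent.H26.MQ.Defs
import Pool.Agent.H69.MQ.PC
import Pool.Agent.H69.MQ.TL
import Pool.Agent.H86.MQ.SG
import Pool.Agent.H86.MQ.PS
import Pool.Agent.H86.MQ.KT
import Pool.Agent.H91.MQ.PB
import Pool.Agent.H91.MQ.GB
import Pool.Agent.H58.MQ.JD
import Pool.Agent.H58.MQ.AK
import Pool.Agent.H19.MQ.JP
import Pool.Agent.H13.MQ.GK

/-! The averages of Poisson integrals over half circles: all modules. -/

set_option autoImplicit false

namespace Pool.Agent.H26.MQ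

theorem all_pb : T_PB := Pool.Agent.H91.MQ.pf_pb

theorem all_sg : T_SG := Pool.Agent.H86.MQ.pf_sg Pool.Agent.H69.MQ.pf_pc

theorem all_jp : T_JP :=
  Pool.Agent.H19.MQ.pf_jp all_pb (Pool.Agent.H86.MQ.pf_ps all_pb) Pool.Agent.H58.MQ.pf_jd

theorem all_kt : T_KT :=
  Pool.Agent.H86.MQ.pf_kt all_pb all_sg
    (Pool.Agent.H58.MQ.AK.pf_ak all_pb Pool.Agent.H58.MQ.pf_jd all_jp)
    Pool.Agent.H91.MQ.pf_gb Pool.Agent.H91.MQ.pf_gc
    (Pool.Agent.H13.MQ.pf_gk Pool.Agent.H69.MQ.pf_pc)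
    (Pool.Agent.H69.MQ.pf_tl all_pb all_sg)

end Pool.Agent.H26.MQ
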