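import Pool.Agent.H26.MQ.Defs
import Pool.Agent.H26.ML.HalfPlane

/-! The Poisson majorant from a line, and continuity of Poisson integrals. -/

set_option autoImplicit false

open MeasureTheory Set Filter Topology Complex

namespace Pool.Agent.H26.MQ

open Pool.Agent.H26.ML

lemma poi_even (a v : ℝ) : poi a (-v) = poi a v := by unfold poi; rw [neg_sq]

lemma poi_symm (a y u : ℝ) : poi a (y - u) = poi a (u - y) := by
  rw [← poi_even, neg_sub]

/-- Comparison of Poisson kernels. -/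
lemma poi_le {a₀ a₁ Y a y u : ℝ} (h0 : 0 < a₀) (h1 : a₀ ≤ a) (h2 : a ≤ a₁) (hy : |y| ≤ Y) :
    poi a (y - u) ≤ ((1 + 2 * Y ^ 2) / a₀ + 2 * a₁) * poi 1 u := by
  have ha : 0 < a := by linarith
  unfold poi
  rw [mul_div_assoc', div_le_div_iff₀ (by positivity) (by positivity), one_pow, mul_one]
  have hY : y ^ 2 ≤ Y ^ 2 := by
    rw [← sq_abs y]
    have := abs_nonneg y
    gcongr
  have e1 : u ^ 2 ≤ 2 * (y - u) ^ 2 + 2 * Y ^ 2 := by nlinarith [sq_nonneg (u - 2 * y)]
  have e2 : a * (1 + u ^ 2) ≤ a * (1 + 2 * Y ^ 2) + 2 * a * (y - u) ^ 2 := by nlinarith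
  have e3 : a * (1 + 2 * Y ^ 2) ≤ (1 + 2 * Y ^ 2) / a₀ * a ^ 2 := by
    rw [div_mul_eq_mul_div, le_div_iff₀ h0]
    have : a * a₀ ≤ a ^ 2 := by nlinarith
    have h3 : 0 ≤ 1 + 2 * Y ^ 2 := by positivity
    nlinarith
  have e4 : 2 * a * (y - u) ^ 2 ≤ 2 * a₁ * (y - u) ^ 2 := by
    have := sq_nonneg (y - u)
    nlinarith
  have e5 : 0 ≤ (1 + 2 * Y ^ 2) / a₀ * (y - u) ^ 2 := by positivity
  have e6 : 0 ≤ 2 * a₁ * a ^ 2 := by
    have : 0 ≤ a₁ := by linarith
    positivity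
  nlinarith

lemma poi_one_le {a u : ℝ} (ha : 0 < a) : poi 1 u ≤ (a + 1 / a) * poi a u := by
  unfold poi
  rw [mul_div_assoc', div_le_div_iff₀ (by positivity) (by positivity)]
  have : (a + 1 / a) * a = a ^ 2 + 1 := by field_simp
  rw [this]
  nlinarith [sq_nonneg (a * u), sq_nonneg a, sq_nonneg u]

lemma UU_meas {b : ℝ → ℝ} (hb : Measurable b) {a : ℝ} (ha : 0 < a) (y : ℝ) :
    AEStronglyMeasurable (fun u => poi a (y - u) * b u) := by
  have h1 : Continuous fun u => poi a (y - u) := (poi_continuous ha).comp (by fun_prop)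
  exact (h1.measurable.mul hb).aestronglyMeasurable

lemma UU_integrable {b : ℝ → ℝ} (hb : Measurable b) (hi : Integrable fun u => poi 1 u * b u)
    {a : ℝ} (ha : 0 < a) (y : ℝ) : Integrable (fun u => poi a (y - u) * b u) := by
  refine (hi.norm.const_mul ((1 + 2 * |y| ^ 2) / a + 2 * a)).mono' (UU_meas hb ha y) ?_
  filter_upwards with u
  have h1 := poi_le (u := u) ha le_rfl le_rfl (le_refl |y|)
  have h2 := poi_pos ha (y - u)
  have h3 := poi_pos one_pos u
  rw [norm_mul, norm_mul, Real.norm_of_nonneg h2.le, Real.norm_of_nonneg h3.le, ← mul_assoc]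
  gcongr

/-- Poisson integrals are continuous up to the imaginary axis (the pole is at distance `δ`). -/
lemma UU_continuousOn {b : ℝ → ℝ} (hb : Measurable b) (hi : Integrable fun u => poi 1 u * b u)
    {δ : ℝ} (hδ : 0 < δ) :
    ContinuousOn (fun p : ℝ × ℝ => UU δ b p.1 p.2) {p | 0 ≤ p.1} := by
  intro p hp
  have hp0 : 0 ≤ p.1 := hp
  unfold UU
  refine ContinuousWithinAt.mul continuousWithinAt_const ?_
  set K : ℝ := (1 + 2 * (|p.2| + 1) ^ 2) / δ + 2 * (p.1 + 1 + δ) with hK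
  have hnb : ∀ᶠ q : ℝ × ℝ in 𝓝[{p | 0 ≤ p.1}] p, 0 ≤ q.1 ∧ q.1 ≤ p.1 + 1 ∧ |q.2| ≤ |p.2| + 1 := by
    have h1 : ∀ᶠ q : ℝ × ℝ in 𝓝 p, q.1 ≤ p.1 + 1 ∧ |q.2| ≤ |p.2| + 1 := by
      have e1 : ∀ᶠ q : ℝ × ℝ in 𝓝 p, q.1 < p.1 + 1 :=
        (continuous_fst.tendsto p).eventually (gt_mem_nhds (by linarith))
      have e2 : ∀ᶠ q : ℝ × ℝ in 𝓝 p, |q.2| < |p.2| + 1 :=
        ((continuous_snd.abs).tendsto p).eventually (gt_mem_nhds (by linarith))
      filter_upwards [e1, e2] with q h1 h2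
      exact ⟨h1.le, h2.le⟩
    filter_upwards [nhdsWithin_le_nhds h1, self_mem_nhdsWithin] with q h1 h2
    exact ⟨h2, h1.1, h1.2⟩
  refine tendsto_integral_filter_of_dominated_convergence (fun u => K * ‖poi 1 u * b u‖) ?_ ?_
    (hi.norm.const_mul K) ?_
  · filter_upwards [hnb] with q hq
    exact UU_meas hb (by linarith [hq.1]) q.2
  · filter_upwards [hnb] with q hq
    filter_upwards with u
    obtain ⟨h1, h2, h3⟩ := hq
    have ha : 0 < q.1 + δ := by linarith
    have h4 := poi_le (u := u) (a := q.1 + δ) hδ (by linarith) (show q.1 + δ ≤ p.1 + 1 + δ by linarith)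
      h3
    have h5 := poi_pos ha (q.2 - u)
    have h6 := poi_pos one_pos u
    rw [norm_mul, norm_mul, Real.norm_of_nonneg h5.le, Real.norm_of_nonneg h6.le, ← mul_assoc]
    gcongr
  · filter_upwards with u
    have ha : 0 < p.1 + δ := by linarith
    have hc : ContinuousAt (fun q : ℝ × ℝ => poi (q.1 + δ) (q.2 - u) * b u) p := by
      unfold poi
      have hne : (p.1 + δ) ^ 2 + (p.2 - u) ^ 2 ≠ 0 := by positivity
      have h1 : ContinuousAt (fun q : ℝ × ℝ => q.1 + δ) p := by fun_prop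
      have h2 : ContinuousAt (fun q : ℝ × ℝ => (q.1 + δ) ^ 2 + (q.2 - u) ^ 2) p := by fun_prop
      exact (h1.div h2 hne).mul continuousAt_const
    exact hc.tendsto.mono_left nhdsWithin_le_nhds

/-- The average over the half circle is continuous in the radius. -/
lemma H_continuousOn {b : ℝ → ℝ} (hb : Measurable b) (hi : Integrable fun u => poi 1 u * b u)
    {δ : ℝ} (hδ : 0 < δ) : ContinuousOn (fun r : ℝ =>
      ∫ θ in (-(Real.pi / 2))..(Real.pi / 2), UU δ b (r * Real.cos θ) (r * Real.sin θ)) (Ici 0) := by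
  have hπ := Real.pi_pos
  -- extend the integrand continuously to all `(r, θ)`
  have hU := UU_continuousOn hb hi hδ
  have hc : Continuous fun p : ℝ × ℝ => UU δ b (max (p.1 * Real.cos p.2) 0) (p.1 * Real.sin p.2) := by
    have h1 : Continuous fun p : ℝ × ℝ => ((max (p.1 * Real.cos p.2) 0, p.1 * Real.sin p.2) : ℝ × ℝ) := by
      fun_prop
    exact hU.comp_continuous h1 fun p => show (0:ℝ) ≤ max (p.1 * Real.cos p.2) 0 from le_max_right _ _
  have h2 := intervalIntegral.continuous_parametric_intervalIntegral_of_continuous'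
    (f := fun r θ : ℝ => UU δ b (max (r * Real.cos θ) 0) (r * Real.sin θ)) (μ := volume) hc
    (-(Real.pi / 2)) (Real.pi / 2)
  refine h2.continuousOn.congr fun r hr => ?_
  refine intervalIntegral.integral_congr fun θ hθ => ?_
  rw [uIcc_of_le (by linarith)] at hθ
  have hcos : 0 ≤ Real.cos θ := Real.cos_nonneg_of_mem_Icc hθ
  have hr0 : 0 ≤ r := hr
  show _ = UU δ b (max (r * Real.cos θ) 0) (r * Real.sin θ)
  rw [max_eq_left (by positivity)]

/-- **The Poisson majorant.** -/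
theorem pm {f : ℂ → ℂ} {E : ℝ} {n : ℕ} (hE : 1 ≤ E)
    (hf : AnalyticOnNhd ℂ f {z | -(1 / 4) ≤ z.re})
    (hg : ∀ z : ℂ, -(1 / 4) ≤ z.re → ‖f z‖ ≤ E * (1 + |z.im|) ^ n) {δ x y : ℝ}
    (hδ : δ ≤ 1 / 4) (hx : 0 < x + δ) (hne : f (x + y * I) ≠ 0) :
    Integrable (fun u : ℝ => poi (x + δ) (y - u) * Real.log ‖f (-δ + u * I)‖) ∧
      Real.log ‖f (x + y * I)‖ ≤ UU δ (fun u => Real.log ‖f (-δ + u * I)‖) x y := by
  have hπ := Real.pi_pos
  have hy := abs_nonneg y
  set g : ℂ → ℂ := fun z => f (z - δ + y * I) with hgdef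
  have hre : ∀ z : ℂ, (z - δ + y * I).re = z.re - δ := by intro z; simp
  have him : ∀ z : ℂ, (z - δ + y * I).im = z.im + y := by intro z; simp
  have hga : AnalyticOnNhd ℂ g {z | 0 ≤ z.re} := by
    intro z hz
    have hz' : 0 ≤ z.re := hz
    have h1 : AnalyticAt ℂ f (z - δ + y * I) := hf _ (by
      show -(1 / 4) ≤ (z - δ + y * I).re
      rw [hre]; linarith)
    exact h1.fun_comp (f := fun z : ℂ => z - δ + y * I) (by fun_prop)
  have hA : 1 ≤ E * (1 + |y|) ^ n := by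
    refine one_le_mul_of_one_le_of_one_le hE (one_le_pow₀ (by linarith))
  have hgg : ∀ z : ℂ, 0 ≤ z.re → ‖g z‖ ≤ E * (1 + |y|) ^ n * (1 + ‖z‖) ^ (n : ℝ) := by
    intro z hz
    have h1 := hg (z - δ + y * I) (by rw [hre]; linarith)
    rw [him] at h1
    have h2 : |z.im + y| ≤ ‖z‖ + |y| := (abs_add_le _ _).trans (by
      have := Complex.abs_im_le_norm z
      linarith)
    have hz0 := norm_nonneg z
    have h3 : 1 + |z.im + y| ≤ (1 + |y|) * (1 + ‖z‖) := by nlinarith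
    rw [Real.rpow_natCast, mul_assoc, ← mul_pow]
    refine h1.trans ?_
    have := abs_nonneg (z.im + y)
    gcongr
  have hgc : g ((x + δ : ℝ) : ℂ) = f (x + y * I) := by
    simp only [hgdef]
    congr 1
    push_cast
    ring
  obtain ⟨h1, h2⟩ := halfplane_jensen hx hA (Nat.cast_nonneg n) hga hgg (by rw [hgc]; exact hne) ∅
    (by simp)
  rw [Finset.sum_empty, zero_add, hgc] at h2
  have hgu : ∀ u : ℝ, g (u * I) = f (-δ + ((u + y : ℝ) : ℂ) * I) := by
    intro u
    simp only [hgdef]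
    congr 1
    push_cast
    ring
  have e1 : ∀ u : ℝ, (x + δ) / ((x + δ) ^ 2 + u ^ 2) * Real.log ‖g (u * I)‖ =
      (fun u : ℝ => poi (x + δ) (y - u) * Real.log ‖f (-δ + u * I)‖) (u + y) := by
    intro u
    simp only
    rw [hgu, poi_symm, add_sub_cancel_right]
    rfl
  simp_rw [e1] at h1 h2
  rw [integral_add_right_eq_self (fun u : ℝ => poi (x + δ) (y - u) * Real.log ‖f (-δ + u * I)‖) y]
    at h2
  refine ⟨?_, ?_⟩
  · have := h1.comp_sub_right y
    simpa using this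
  · unfold UU
    rw [← div_eq_inv_mul, le_div_iff₀ hπ]
    linarith

end Pool.Agent.H26.MQ
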