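import Pool.Agent.H26.MQ.PM

/-! The circle inequality, with the left half of the circle reflected. -/

set_option autoImplicit false

open MeasureTheory Set Filter Topology Complex Metric

namespace Pool.Agent.H26.MQ

open Pool.Agent.H26.ML

/-- The zeros of an analytic function in a closed convex set are countable. -/
lemma zeros_countable {f : ℂ → ℂ} {U : Set ℂ} (hU : Convex ℝ U) (hUc : IsClosed U)
    (hf : AnalyticOnNhd ℂ f U) {x : ℂ} (hx : x ∈ U) (hne : f x ≠ 0) :
    {z | z ∈ U ∧ f z = 0}.Countable := by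
  have h1 := hf.preimage_zero_mem_codiscreteWithin hne hx ⟨⟨x, hx⟩, hU.isPreconnected⟩
  have h2 : ∀ k : ℕ, {z | z ∈ U ∩ closedBall 0 k ∧ f z = 0}.Finite := by
    intro k
    have hK : IsCompact (U ∩ closedBall (0 : ℂ) k) := (isCompact_closedBall 0 (k : ℝ)).inter_left hUc
    have h3 := hK.finite_sdiff_of_mem_codiscreteWithin
      (codiscreteWithin_mono (inter_subset_left) h1)
    refine h3.subset fun z hz => ⟨hz.1, fun h => h hz.2⟩
  have h3 : {z | z ∈ U ∧ f z = 0} ⊆ ⋃ k : ℕ, {z | z ∈ U ∩ closedBall 0 k ∧ f z = 0} := by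
    intro z hz
    obtain ⟨k, hk⟩ := exists_nat_ge ‖z‖
    exact mem_iUnion.mpr ⟨k, ⟨⟨hz.1, by simpa using hk⟩, hz.2⟩⟩
  exact (countable_iUnion fun k => (h2 k).countable).mono h3

/-- Almost no point of a vertical line is a zero. -/
lemma line_ae_ne {f : ℂ → ℂ} {U : Set ℂ} (hU : Convex ℝ U) (hUc : IsClosed U)
    (hf : AnalyticOnNhd ℂ f U) {x : ℂ} (hx : x ∈ U) (hne : f x ≠ 0) {a : ℂ}
    (ha : ∀ u : ℝ, a + u * I ∈ U) : ∀ᵐ u : ℝ, f (a + u * I) ≠ 0 := by
  have h1 := zeros_countable hU hUc hf hx hne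
  have hinj : Function.Injective fun u : ℝ => a + (u : ℂ) * I := by
    intro u v huv
    simpa using huv
  have h2 := (h1.preimage hinj).measure_zero volume
  filter_upwards [measure_eq_zero_iff_ae_notMem.mp h2] with u hu h0
  exact hu ⟨ha u, h0⟩

variable {f : ℂ → ℂ} {A Λ r : ℝ}

/-- The mean over a circle, folded to the right half. -/
lemma circle_fold (hf : AnalyticOnNhd ℂ f {z | -(1 / 4) ≤ z.re}) (h0 : f 0 ≠ 0) (hr : 0 < r)
    (hr4 : r ≤ 1 / 4) :
    IntervalIntegrable (fun θ => Real.log ‖f (circleMap 0 r θ)‖) volume (-(Real.pi / 2))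
      (Real.pi / 2) ∧
    IntervalIntegrable (fun θ => Real.log ‖f (circleMap 0 r (Real.pi - θ))‖) volume
      (-(Real.pi / 2)) (Real.pi / 2) ∧
    2 * Real.pi * Real.log ‖f 0‖ ≤
      (∫ θ in (-(Real.pi / 2))..(Real.pi / 2), Real.log ‖f (circleMap 0 r θ)‖) +
      ∫ θ in (-(Real.pi / 2))..(Real.pi / 2), Real.log ‖f (circleMap 0 r (Real.pi - θ))‖ := by
  have hπ := Real.pi_pos
  have hsub : closedBall (0 : ℂ) r ⊆ {z : ℂ | -(1 / 4) ≤ z.re} := by
    intro z hz
    have h1 : ‖z‖ ≤ r := by simpa using hz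
    have h2 := (abs_le.mp ((Complex.abs_re_le_norm z).trans h1)).1
    show -(1 / 4) ≤ z.re
    linarith
  have hfb : AnalyticOnNhd ℂ f (closedBall 0 r) := hf.mono hsub
  have hJ := disc_jensen hr hfb h0 ∅ (by simp)
  rw [Finset.sum_empty, zero_add] at hJ
  set G : ℝ → ℝ := fun θ => Real.log ‖f (circleMap 0 r θ)‖ with hG
  have hper : Function.Periodic G (2 * Real.pi) := by
    intro θ
    simp only [hG]
    rw [periodic_circleMap 0 r θ]
  have hci : CircleIntegrable (fun z => Real.log ‖f z‖) 0 r := by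
    apply MeromorphicOn.circleIntegrable_log_norm
    intro z hz
    have hz' : z ∈ closedBall (0 : ℂ) r := by
      apply sphere_subset_closedBall
      rwa [abs_of_pos hr] at hz
    exact (hfb z hz').meromorphicAt
  have hint : IntervalIntegrable G volume 0 (2 * Real.pi) := hci
  have hint2 : ∀ a b : ℝ, IntervalIntegrable G volume a b := by
    intro a b
    exact hper.intervalIntegrable (by positivity) (t := 0) (by rw [zero_add]; exact hint) a b
  have hπ2 : ∀ a b : ℝ, IntervalIntegrable (fun θ => G (Real.pi - θ)) volume a b := by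
    intro a b
    have := (hint2 (Real.pi - a) (Real.pi - b)).comp_sub_left Real.pi
    simpa using this
  refine ⟨hint2 _ _, hπ2 _ _, ?_⟩
  have e1 : ∫ θ in (0 : ℝ)..(2 * Real.pi), G θ =
      ∫ θ in (-(Real.pi / 2))..(-(Real.pi / 2) + 2 * Real.pi), G θ := by
    have := hper.intervalIntegral_add_eq 0 (-(Real.pi / 2))
    rwa [zero_add] at this
  have e2 : ∫ θ in (-(Real.pi / 2))..(-(Real.pi / 2) + 2 * Real.pi), G θ =
      (∫ θ in (-(Real.pi / 2))..(Real.pi / 2), G θ) +
        ∫ θ in (Real.pi / 2)..(-(Real.pi / 2) + 2 * Real.pi), G θ :=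
    (intervalIntegral.integral_add_adjacent_intervals (hint2 _ _) (hint2 _ _)).symm
  have e3 : ∫ θ in (-(Real.pi / 2))..(Real.pi / 2), G (Real.pi - θ) =
      ∫ θ in (Real.pi / 2)..(-(Real.pi / 2) + 2 * Real.pi), G θ := by
    rw [intervalIntegral.integral_comp_sub_left (fun θ => G θ) Real.pi]
    congr 1 <;> ring
  have e4 : Real.circleAverage (fun z => Real.log ‖f z‖) 0 r =
      (2 * Real.pi)⁻¹ * ∫ θ in (0 : ℝ)..(2 * Real.pi), G θ := by
    rw [Real.circleAverage_def, smul_eq_mul]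
  rw [e4, ← div_eq_inv_mul, le_div_iff₀ (by positivity), e1, e2, ← e3] at hJ
  linarith

/-- **The circle inequality.** -/
theorem circle {E : ℝ} {n : ℕ} (hE : 1 ≤ E)
    (hf : AnalyticOnNhd ℂ f {z | -(1 / 4) ≤ z.re})
    (hg : ∀ z : ℂ, -(1 / 4) ≤ z.re → ‖f z‖ ≤ E * (1 + |z.im|) ^ n) (hA : 1 ≤ A)
    (hrefl : ∀ x y : ℝ, 0 < x → x ≤ 1 / 4 → |y| ≤ 1 / 4 →
      ‖f (-x + y * I)‖ ≤ A * Real.exp (x * Λ) * ‖f (x + y * I)‖)
    (h0 : f 0 ≠ 0) (hr : 0 < r) (hr4 : r ≤ 1 / 4) {δ : ℝ} (hδ0 : 0 < δ) (hδ : δ ≤ 1 / 4)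
    (hb : Measurable fun u : ℝ => Real.log ‖f (-δ + u * I)‖)
    (hi : Integrable fun u : ℝ => poi 1 u * Real.log ‖f (-δ + u * I)‖) :
    Real.log ‖f 0‖ ≤ Real.log A / 2 + r * Λ / Real.pi + Real.pi⁻¹ *
      ∫ θ in (-(Real.pi / 2))..(Real.pi / 2),
        UU δ (fun u => Real.log ‖f (-δ + u * I)‖) (r * Real.cos θ) (r * Real.sin θ) := by
  have hπ := Real.pi_pos
  obtain ⟨hi1, hi2, hJ⟩ := circle_fold hf h0 hr hr4
  set b : ℝ → ℝ := fun u => Real.log ‖f (-δ + u * I)‖ with hbdef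
  have hUint : IntervalIntegrable (fun θ => UU δ b (r * Real.cos θ) (r * Real.sin θ)) volume
      (-(Real.pi / 2)) (Real.pi / 2) := by
    apply ContinuousOn.intervalIntegrable
    have hU := UU_continuousOn hb hi hδ0
    refine hU.comp (f := fun θ : ℝ => ((r * Real.cos θ, r * Real.sin θ) : ℝ × ℝ)) (by fun_prop) ?_
    intro θ hθ
    rw [uIcc_of_le (by linarith)] at hθ
    have hcos : 0 ≤ Real.cos θ := Real.cos_nonneg_of_mem_Icc hθ
    show 0 ≤ r * Real.cos θ
    positivity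
  have hcirc : ∀ θ : ℝ, circleMap 0 r θ = ((r * Real.cos θ : ℝ) : ℂ) + ((r * Real.sin θ : ℝ) : ℂ) * I := by
    intro θ
    rw [circleMap, zero_add, Complex.exp_mul_I]
    push_cast
    ring
  have hcirc2 : ∀ θ : ℝ, circleMap 0 r (Real.pi - θ) =
      -((r * Real.cos θ : ℝ) : ℂ) + ((r * Real.sin θ : ℝ) : ℂ) * I := by
    intro θ
    rw [hcirc, Real.cos_pi_sub, Real.sin_pi_sub]
    push_cast
    ring
  have hcount := zeros_countable (convex_halfSpace_re_ge (-(1 / 4)))
    (isClosed_le continuous_const Complex.continuous_re) hf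
    (x := 0) (by simp) h0
  have hP := hcount.preimage_circleMap 0 hr.ne'
  have hmem : ∀ θ : ℝ, circleMap 0 r θ ∈ {z : ℂ | -(1 / 4) ≤ z.re} := by
    intro θ
    show -(1 / 4) ≤ (circleMap 0 r θ).re
    have h1 : ‖circleMap 0 r θ‖ = r := by simp [abs_of_pos hr]
    have h2 := (abs_le.mp ((Complex.abs_re_le_norm (circleMap 0 r θ)).trans h1.le)).1
    linarith
  have hae1 : ∀ᵐ θ : ℝ, f (circleMap 0 r θ) ≠ 0 := by
    filter_upwards [measure_eq_zero_iff_ae_notMem.mp (hP.measure_zero volume)] with θ hθ h0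
    exact hθ ⟨hmem θ, h0⟩
  have hae2 : ∀ᵐ θ : ℝ, f (circleMap 0 r (Real.pi - θ)) ≠ 0 := by
    have hinj : Function.Injective fun θ : ℝ => Real.pi - θ := sub_right_injective
    filter_upwards [measure_eq_zero_iff_ae_notMem.mp ((hP.preimage hinj).measure_zero volume)]
      with θ hθ h0
    exact hθ ⟨hmem _, h0⟩
  have hint3 : IntervalIntegrable (fun θ => Real.log A + r * Λ * Real.cos θ +
      2 * UU δ b (r * Real.cos θ) (r * Real.sin θ)) volume (-(Real.pi / 2)) (Real.pi / 2) := by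
    refine IntervalIntegrable.add ?_ (hUint.const_mul 2)
    exact (by fun_prop : Continuous fun θ : ℝ => Real.log A + r * Λ * Real.cos θ).intervalIntegrable
      _ _
  have hsum : (∫ θ in (-(Real.pi / 2))..(Real.pi / 2), Real.log ‖f (circleMap 0 r θ)‖) +
      (∫ θ in (-(Real.pi / 2))..(Real.pi / 2), Real.log ‖f (circleMap 0 r (Real.pi - θ))‖) ≤
      ∫ θ in (-(Real.pi / 2))..(Real.pi / 2), (Real.log A + r * Λ * Real.cos θ +
        2 * UU δ b (r * Real.cos θ) (r * Real.sin θ)) := by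
    rw [← intervalIntegral.integral_add hi1 hi2]
    refine intervalIntegral.integral_mono_ae_restrict (by linarith) (hi1.add hi2) hint3 ?_
    have hres : volume.restrict (Icc (-(Real.pi / 2)) (Real.pi / 2)) =
        volume.restrict (Ioo (-(Real.pi / 2)) (Real.pi / 2)) :=
      (Measure.restrict_congr_set Ioo_ae_eq_Icc).symm
    rw [hres]
    filter_upwards [ae_restrict_of_ae hae1, ae_restrict_of_ae hae2,
      ae_restrict_mem measurableSet_Ioo] with θ h1 h2 h3
    have hcos : 0 < Real.cos θ := Real.cos_pos_of_mem_Ioo h3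
    have hcos1 : Real.cos θ ≤ 1 := Real.cos_le_one θ
    have hx0 : 0 < r * Real.cos θ := by positivity
    have hx4 : r * Real.cos θ ≤ 1 / 4 := by nlinarith
    have hy4 : |r * Real.sin θ| ≤ 1 / 4 := by
      rw [abs_mul, abs_of_pos hr]
      have := Real.abs_sin_le_one θ
      nlinarith [abs_nonneg (Real.sin θ)]
    rw [hcirc] at h1
    rw [hcirc2] at h2
    show Real.log ‖f (circleMap 0 r θ)‖ + Real.log ‖f (circleMap 0 r (Real.pi - θ))‖ ≤ _
    rw [hcirc2 θ, hcirc θ]
    have hpm := (pm hE hf hg (δ := δ) hδ (by linarith) h1).2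
    have hR := hrefl _ _ hx0 hx4 hy4
    have hpos1 : 0 < ‖f (((r * Real.cos θ : ℝ) : ℂ) + ((r * Real.sin θ : ℝ) : ℂ) * I)‖ :=
      norm_pos_iff.mpr h1
    have hpos2 : 0 < ‖f (-((r * Real.cos θ : ℝ) : ℂ) + ((r * Real.sin θ : ℝ) : ℂ) * I)‖ :=
      norm_pos_iff.mpr h2
    have hlog := Real.log_le_log hpos2 hR
    rw [Real.log_mul (by positivity) hpos1.ne', Real.log_mul (by positivity) (by positivity),
      Real.log_exp] at hlog
    have e1 : UU δ b (r * Real.cos θ) (r * Real.sin θ) =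
      UU δ (fun u : ℝ => Real.log ‖f (-δ + u * I)‖) (r * Real.cos θ) (r * Real.sin θ) := rfl
    rw [e1]
    linarith
  have hcosint : ∫ θ in (-(Real.pi / 2))..(Real.pi / 2), Real.cos θ = 2 := by
    rw [integral_cos, Real.sin_neg, Real.sin_pi_div_two]; norm_num
  have hval : ∫ θ in (-(Real.pi / 2))..(Real.pi / 2), (Real.log A + r * Λ * Real.cos θ +
        2 * UU δ b (r * Real.cos θ) (r * Real.sin θ)) = Real.pi * Real.log A + r * Λ * 2 +
      2 * ∫ θ in (-(Real.pi / 2))..(Real.pi / 2), UU δ b (r * Real.cos θ) (r * Real.sin θ) := by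
    rw [intervalIntegral.integral_add
      ((by fun_prop : Continuous fun θ : ℝ => Real.log A + r * Λ * Real.cos θ).intervalIntegrable
        _ _) (hUint.const_mul 2), intervalIntegral.integral_add (by simp)
      ((by fun_prop : Continuous fun θ : ℝ => r * Λ * Real.cos θ).intervalIntegrable _ _),
      intervalIntegral.integral_const_mul, intervalIntegral.integral_const_mul, hcosint,
      intervalIntegral.integral_const]
    simp
  rw [hval] at hsum
  have hfin := hJ.trans hsum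
  have e2 : Real.log A / 2 + r * Λ / Real.pi + Real.pi⁻¹ *
      ∫ θ in (-(Real.pi / 2))..(Real.pi / 2), UU δ b (r * Real.cos θ) (r * Real.sin θ) =
      (2 * Real.pi)⁻¹ * (Real.pi * Real.log A + r * Λ * 2 +
      2 * ∫ θ in (-(Real.pi / 2))..(Real.pi / 2), UU δ b (r * Real.cos θ) (r * Real.sin θ)) := by
    field_simp
  rw [e2, ← div_eq_inv_mul, le_div_iff₀ (by positivity)]
  linarith

end Pool.Agent.H26.MQ
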