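import Pool.Agent.H26.MQ.Circle

/-! The semigroup property for Poisson integrals. -/

set_option autoImplicit false

open MeasureTheory Set Filter Topology Complex

namespace Pool.Agent.H26.MQ

open Pool.Agent.H26.ML

variable {b : ℝ → ℝ}

theorem semigroup_UU (hSG : T_SG) (hb : Measurable b) (hi : Integrable fun u => poi 1 u * b u)
    {a d : ℝ} (ha : 0 < a) (hd : 0 < d) :
    Integrable (fun y => poi a y * ∫ u, poi d (y - u) * b u) ∧
      ∫ y, poi a y * ∫ u, poi d (y - u) * b u = Real.pi * ∫ u, poi (a + d) u * b u := by
  have hπ := Real.pi_pos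
  have hmeas : Measurable (Function.uncurry fun y u : ℝ => poi a y * (poi d (y - u) * b u)) := by
    have h1 : Measurable fun p : ℝ × ℝ => poi a p.1 := (poi_continuous ha).measurable.comp
      measurable_fst
    have h2 : Measurable fun p : ℝ × ℝ => poi d (p.1 - p.2) := (poi_continuous hd).measurable.comp
      (measurable_fst.sub measurable_snd)
    have h3 : Measurable fun p : ℝ × ℝ => b p.2 := hb.comp measurable_snd
    exact h1.mul (h2.mul h3)
  have hkey : ∀ u : ℝ, ∫ y, poi a y * (poi d (y - u) * b u) = Real.pi * (poi (a + d) u * b u) := by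
    intro u
    have h1 := (hSG d a u hd ha).2
    have e1 : ∀ y, poi a y * (poi d (y - u) * b u) = (poi d (y - u) * poi a y) * b u := fun y => by
      ring
    simp_rw [e1]
    rw [integral_mul_const, h1, add_comm d a]
    ring
  have hkeyn : ∀ u : ℝ, ∫ y, ‖poi a y * (poi d (y - u) * b u)‖ =
      Real.pi * ‖poi (a + d) u * b u‖ := by
    intro u
    have h1 := (hSG d a u hd ha).2
    have e1 : ∀ y, ‖poi a y * (poi d (y - u) * b u)‖ = (poi d (y - u) * poi a y) * ‖b u‖ := by
      intro y
      rw [norm_mul, norm_mul, Real.norm_of_nonneg (poi_pos ha y).le,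
        Real.norm_of_nonneg (poi_pos hd (y - u)).le]
      ring
    simp_rw [e1]
    rw [integral_mul_const, h1, add_comm d a, norm_mul,
      Real.norm_of_nonneg (poi_pos (by linarith) u).le]
    ring
  have hiad : Integrable fun u => poi (a + d) u * b u := by
    have := UU_integrable hb hi (a := a + d) (by linarith) 0
    refine this.congr ?_
    filter_upwards with u
    rw [zero_sub, poi_even]
  have hprod : Integrable (Function.uncurry fun y u : ℝ => poi a y * (poi d (y - u) * b u))
      (volume.prod volume) := by
    rw [integrable_prod_iff' hmeas.aestronglyMeasurable]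
    refine ⟨?_, ?_⟩
    · filter_upwards with u
      have h1 := ((hSG d a u hd ha).1).mul_const (b u)
      refine h1.congr ?_
      filter_upwards with y
      simp only [Function.uncurry]
      ring
    · simp only [Function.uncurry]
      simp_rw [hkeyn]
      exact hiad.norm.const_mul _
  have e2 : ∀ y, poi a y * ∫ u, poi d (y - u) * b u = ∫ u, poi a y * (poi d (y - u) * b u) :=
    fun y => (integral_const_mul _ _).symm
  constructor
  · have := hprod.integral_prod_left
    simp_rw [e2]
    exact this
  · simp_rw [e2]
    rw [integral_integral_swap hprod]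
    simp_rw [hkey]
    rw [integral_const_mul]

end Pool.Agent.H26.MQ
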