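import Pool.Agent.H26.MQ.Means

/-! The inequality for `L`-functions. -/

set_option autoImplicit false

open MeasureTheory Set Filter Topology Complex

namespace Pool.Agent.H26.MQ

open Pool.Agent.H26.ML Pool.Agent.H23.GLM Pool.Agent.H23.GLH Pool.Agent.H23.DZ
open Pool.Agent.H61.Ray (norm_L_F)

/-- The choice of the parameter `N`. -/
lemma optimise {C Λ P L : ℝ} (hC : 1 ≤ C) (hΛ : 0 ≤ Λ) (hP : 1 ≤ P)
    (h1 : ∀ N : ℝ, 1 ≤ N → L ≤ C * (Λ + 1) / N + Real.exp (C * N) * P)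
    (h2 : L ≤ C * (Λ + 1)) :
    L ≤ 8 * C ^ 2 * (Real.log 2 + Λ) / Real.log (2 + (Real.log 2 + Λ) / P) := by
  have hl2 := Real.log_two_gt_d9
  have hl2' := Real.log_two_lt_d9
  set Λ₁ := Real.log 2 + Λ with hΛ₁
  have hΛ₁0 : 0 < Λ₁ := by linarith
  have hcmp : Λ + 1 ≤ 2 * Λ₁ := by linarith
  have hw : 0 < Λ₁ / P := by positivity
  set q := Real.log (2 + Λ₁ / P) with hq
  have hq0 : 0 < q := Real.log_pos (by linarith)
  have hexp : Real.exp q = 2 + Λ₁ / P := Real.exp_log (by positivity)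
  rcases lt_or_ge q (2 * C) with hlt | hge
  · rw [le_div_iff₀ hq0]
    have h3 : L * q ≤ C * (Λ + 1) * q := by gcongr
    have h4 : C * (Λ + 1) * q ≤ C * (2 * Λ₁) * (2 * C) := by gcongr
    have h5 : C * (2 * Λ₁) * (2 * C) ≤ 8 * C ^ 2 * Λ₁ := by
      have : 0 ≤ C ^ 2 * Λ₁ := by positivity
      nlinarith
    linarith
  · have hN : 1 ≤ q / (2 * C) := by rw [le_div_iff₀ (by positivity)]; linarith
    have h3 := h1 _ hN
    have e1 : C * (q / (2 * C)) = q / 2 := by field_simp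
    have e2 : C * (Λ + 1) / (q / (2 * C)) = 2 * C ^ 2 * (Λ + 1) / q := by field_simp
    rw [e1, e2] at h3
    have h4 : 2 * C ^ 2 * (Λ + 1) / q ≤ 4 * C ^ 2 * Λ₁ / q := by
      gcongr ?_ / q
      have : 0 ≤ C ^ 2 := by positivity
      nlinarith
    have h5 : Real.exp (q / 2) * P ≤ 4 * Λ₁ / q := by
      have hq2 : 2 ≤ q := by linarith
      have h6 : (4 : ℝ) ≤ Real.exp q := by
        have h7 : Real.exp 2 ≤ Real.exp q := Real.exp_le_exp.mpr hq2
        have h8 : (4 : ℝ) ≤ Real.exp 2 := by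
          have h9 : (2 : ℝ) ≤ Real.exp 1 := by linarith [Real.exp_one_gt_d9]
          have h10 : Real.exp 2 = Real.exp 1 * Real.exp 1 := by rw [← Real.exp_add]; norm_num
          have h11 : (2 : ℝ) * 2 ≤ Real.exp 1 * Real.exp 1 := by gcongr
          rw [h10]
          linarith
        linarith
      have h7 : Real.exp q / 2 ≤ Λ₁ / P := by linarith
      have h8 : Real.exp q * P ≤ 2 * Λ₁ := by
        rw [div_le_div_iff₀ (by norm_num) (by linarith)] at h7
        linarith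
      have h9 : q / 2 ≤ Real.exp (q / 2) := by
        have := Real.add_one_le_exp (q / 2)
        linarith
      have h10 : Real.exp q = Real.exp (q / 2) * Real.exp (q / 2) := by
        rw [← Real.exp_add]; ring_nf
      rw [le_div_iff₀ hq0]
      have h11 : Real.exp (q / 2) * P * q ≤ Real.exp (q / 2) * P * (2 * Real.exp (q / 2)) := by
        gcongr
        linarith
      have h12 : Real.exp (q / 2) * P * (2 * Real.exp (q / 2)) = 2 * (Real.exp q * P) := by
        rw [h10]; ring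
      linarith
    have h6 : 4 * C ^ 2 * Λ₁ / q + 4 * Λ₁ / q ≤ 8 * C ^ 2 * Λ₁ / q := by
      rw [← add_div]
      gcongr ?_ / q
      have : Λ₁ ≤ C ^ 2 * Λ₁ := by
        have : 1 ≤ C ^ 2 := one_le_pow₀ hC
        nlinarith
      linarith
    linarith

variable {m : ℕ}

/-- **The inequality.** -/
theorem mean_ineq (hPB : T_PB) (hJP : T_JP) (hSG : T_SG) (hKT : T_KT) {S : Set (LData m)}
    (hM : Molteni S) (hF : FarBounds S) : ∃ c₀ : ℝ, 0 < c₀ ∧ ∀ c : ℝ, c₀ ≤ c → ∃ A : ℝ, 1 ≤ A ∧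
      ∀ π ∈ S, ∀ (t : ℝ) (M : ℂ → ℂ), Multiplier M → M (1 / 2 + c + t * I) ≠ 0 →
        1 ≤ A + logMean (fun s => π.L s * M s) c t - Real.log ‖M (1 / 2 + c + t * I)‖ ∧
        ‖π.L (1 / 2 + t * I)‖ ≤ Real.exp (A * Real.log (2 * π.X t) /
          Real.log (2 + Real.log (2 * π.X t) /
            (A + logMean (fun s => π.L s * M s) c t - Real.log ‖M (1 / 2 + c + t * I)‖))) := by
  obtain ⟨A, σ, hA, hσ, hloc⟩ := exists_loc hM hF
  refine ⟨σ + 2, by linarith, fun c hc => ?_⟩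
  have hc0 : 0 < c := by linarith
  obtain ⟨C, hC1, hC⟩ := main_ineq hPB hJP hSG hKT m hA hσ hc
  have hlA : 0 ≤ Real.log A := Real.log_nonneg hA
  obtain ⟨D, hD⟩ : ∃ D : ℝ, D = C + Real.log A + 3 := ⟨_, rfl⟩
  have hD1 : 1 ≤ D := by linarith
  have hDC : C ≤ D := by linarith
  have h8 : D ≤ 8 * D ^ 2 := by nlinarith
  refine ⟨8 * D ^ 2, by linarith, fun π hπ t M hMul hne => ?_⟩
  have hX1 := π.one_le_X t
  have hX0 : 0 < π.X t := by linarith
  set Λ := Real.log (π.X t) with hΛdef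
  have hΛ : 0 ≤ Λ := Real.log_nonneg hX1
  obtain ⟨hiL, hFL, hLne⟩ := mean_F_L hA hσ hloc hπ (c := c) (t := t) hc0
  have hLM := mean_L_LM hMul hc0 hne hiL hLne
  obtain ⟨hP1, hmain⟩ := hC Λ _ hΛ (hloc π hπ t)
  set PF := Real.pi⁻¹ * (∫ u, poi c u * bb (fun z => π.F (1 / 2 + t * I + z)) 0 u) with hPF
  set P := 8 * D ^ 2 + logMean (fun s => π.L s * M s) c t - Real.log ‖M (1 / 2 + c + t * I)‖
    with hP
  have hPP : D + PF ≤ P := by rw [hP]; linarith
  have hP1' : 1 ≤ P := by linarith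
  refine ⟨hP1', ?_⟩
  have hlog2X : Real.log (2 * π.X t) = Real.log 2 + Λ := by
    rw [Real.log_mul (by norm_num) hX0.ne']
  rw [hlog2X]
  have hRHS : 0 ≤ 8 * D ^ 2 * (Real.log 2 + Λ) / Real.log (2 + (Real.log 2 + Λ) / P) := by
    have h1 : 0 < Real.log 2 := Real.log_pos (by norm_num)
    have h2 : 0 ≤ (Real.log 2 + Λ) / P := by positivity
    have h3 : 0 < Real.log (2 + (Real.log 2 + Λ) / P) := Real.log_pos (by linarith)
    positivity
  rcases (norm_nonneg (π.L (1 / 2 + t * I))).eq_or_lt with h0 | h0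
  · rw [← h0]; exact (Real.exp_pos _).le
  rw [← Real.log_le_iff_le_exp h0]
  have hFL2 := norm_L_F π (s := 1 / 2 + t * I) (by simp; norm_num) (by simp; norm_num)
  have hF0 : 0 < ‖π.F (1 / 2 + t * I)‖ := by
    by_contra hcon
    push Not at hcon
    have h2 := hFL2.2
    linarith
  have hlog7 : Real.log 7 ≤ 2 := by
    rw [Real.log_le_iff_le_exp (by norm_num)]
    have h9 : (2.7 : ℝ) ≤ Real.exp 1 := by linarith [Real.exp_one_gt_d9]
    have h10 : Real.exp 2 = Real.exp 1 * Real.exp 1 := by rw [← Real.exp_add]; norm_num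
    have h11 : (2.7 : ℝ) * 2.7 ≤ Real.exp 1 * Real.exp 1 := by gcongr
    rw [h10]
    linarith
  have hLF : Real.log ‖π.L (1 / 2 + t * I)‖ ≤ 2 + Real.log ‖π.F (1 / 2 + t * I)‖ := by
    have h1 := Real.log_le_log h0 hFL2.2
    rw [Real.log_mul (by norm_num) hF0.ne'] at h1
    linarith
  refine optimise hD1 hΛ hP1' (fun N hN => ?_) ?_
  · have h1 := hmain N hN
    rw [add_zero, ← Real.log_le_iff_le_exp hF0] at h1
    have hN0 : 0 < N := by linarith
    have h2 : C * (Λ + 1) / N ≤ D * (Λ + 1) / N := by gcongr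
    have h3 : Real.exp (C * N) * (C + PF) ≤ Real.exp (D * N) * (C + PF) :=
      mul_le_mul_of_nonneg_right (Real.exp_le_exp.mpr (mul_le_mul_of_nonneg_right hDC hN0.le))
        (by linarith)
    have h4 : 1 ≤ Real.exp (D * N) := Real.one_le_exp (by positivity)
    have h5 : Real.exp (D * N) * (C + PF) + 2 ≤ Real.exp (D * N) * (D + PF) := by
      have h6 : C + 2 ≤ D := by linarith
      have h7 : Real.exp (D * N) * (C + PF) + 2 ≤ Real.exp (D * N) * (C + PF + 2) := by
        rw [mul_add (Real.exp (D * N)) (C + PF) 2]; linarith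
      exact h7.trans (mul_le_mul_of_nonneg_left (by linarith) (by linarith))
    have h6 : Real.exp (D * N) * (D + PF) ≤ Real.exp (D * N) * P := by gcongr
    linarith
  · have h1 := (hloc π hπ t).log_le hA hΛ (z := 0) (by simp)
    unfold be at h1
    simp only [add_zero, Complex.zero_im, abs_zero, Real.log_one, mul_zero] at h1
    have h2 : D * (Λ + 1) = D * Λ + D := by ring
    have h3 : Λ ≤ D * Λ := le_mul_of_one_le_left hΛ hD1
    linarith

end Pool.Agent.H26.MQ
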