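import Pool.Agent.H26.MQ.Defs

/-! Mass and first moment of the density on `(0, 1/4)`. -/

set_option autoImplicit false

open MeasureTheory Set Filter Topology

namespace Pool.Agent.H26.MQ

/-- The first moment. -/
noncomputable def I1 : ℝ := ∫ r in Ioi (0 : ℝ), r * pp r

lemma I1_nonneg (hPB : T_PB) : 0 ≤ I1 := by
  refine setIntegral_nonneg measurableSet_Ioi fun r hr => ?_
  have hr0 : 0 < r := hr
  exact mul_nonneg hr0.le (hPB.1 r hr0.le)

lemma scaled {N : ℝ} : ∫ r in (0 : ℝ)..(1 / 4), N * pp (N * r) = ∫ s in (0 : ℝ)..(N / 4), pp s := by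
  rw [intervalIntegral.integral_const_mul, intervalIntegral.mul_integral_comp_mul_left]
  congr 1 <;> ring

lemma mass (hPB : T_PB) (hJP : T_JP) {N : ℝ} (hN : 24 ≤ N) :
    1 / 2 ≤ ∫ r in (0 : ℝ)..(1 / 4), N * pp (N * r) ∧
      ∫ r in (0 : ℝ)..(1 / 4), N * pp (N * r) ≤ 1 := by
  obtain ⟨h0, _, h3, _, _, hint, _⟩ := hPB
  rw [scaled]
  set M := N / 4 with hM
  have hM6 : 6 ≤ M := by rw [hM]; linarith
  have hM0 : 0 < M := by linarith
  have e1 : ∫ s in (0 : ℝ)..M, pp s = (∫ s in Ioi (0 : ℝ), pp s) - ∫ s in Ioi M, pp s := by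
    have h4 := intervalIntegral.integral_interval_add_Ioi (μ := volume) (f := pp) (a := 0) (b := M)
      hint.integrableOn hint.integrableOn
    linarith
  rw [e1, hJP.1]
  have htail : ∫ s in Ioi M, pp s ≤ 1 / 2 := by
    have h5 : IntegrableOn (fun s : ℝ => 36 * s ^ (-3 : ℝ)) (Ioi M) :=
      (integrableOn_Ioi_rpow_of_lt (by norm_num) hM0).const_mul 36
    have h6 : ∫ s in Ioi M, pp s ≤ ∫ s in Ioi M, 36 * s ^ (-3 : ℝ) := by
      refine setIntegral_mono_on hint.integrableOn h5 measurableSet_Ioi fun s hs => ?_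
      have hs0 : 0 < s := hM0.trans hs
      refine (h3 s hs0).trans (le_of_eq ?_)
      rw [Real.rpow_neg hs0.le, div_eq_mul_inv]
      norm_num
    refine h6.trans ?_
    rw [integral_const_mul, integral_Ioi_rpow_of_lt (by norm_num) hM0]
    have h7 : (-3 : ℝ) + 1 = -2 := by norm_num
    rw [h7, Real.rpow_neg hM0.le]
    have h8 : M ^ (2 : ℝ) = M ^ 2 := by norm_num
    rw [h8]
    have h9 : 36 ≤ M ^ 2 := by nlinarith
    have h10 : (M ^ 2)⁻¹ ≤ 1 / 36 := by
      rw [one_div]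
      exact inv_anti₀ (by norm_num) h9
    linarith
  have hnn : 0 ≤ ∫ s in Ioi M, pp s := setIntegral_nonneg measurableSet_Ioi fun s hs =>
    h0 s (hM0.trans hs).le
  constructor <;> linarith

lemma moment (hPB : T_PB) {N : ℝ} (hN : 0 < N) :
    ∫ r in (0 : ℝ)..(1 / 4), N * pp (N * r) * r ≤ I1 / N := by
  obtain ⟨h0, _, h3, _, _, hint, hi1, _⟩ := hPB
  have e1 := intervalIntegral.mul_integral_comp_mul_left (f := fun s => s * pp s) (c := N) (a := 0)
    (b := 1 / 4)
  have e2 : ∫ r in (0 : ℝ)..(1 / 4), N * pp (N * r) * r =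
      N⁻¹ * (N * ∫ r in (0 : ℝ)..(1 / 4), (fun s => s * pp s) (N * r)) := by
    rw [← intervalIntegral.integral_const_mul, ← intervalIntegral.integral_const_mul]
    refine intervalIntegral.integral_congr fun r _ => ?_
    simp only
    field_simp
  rw [e2, e1, mul_zero, ← div_eq_inv_mul]
  have h4 : ∫ s in (0 : ℝ)..(N * (1 / 4)), s * pp s ≤ I1 := by
    rw [intervalIntegral.integral_of_le (by positivity)]
    unfold I1
    refine setIntegral_mono_set hi1 ?_ Ioc_subset_Ioi_self.eventuallyLE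
    filter_upwards [ae_restrict_mem measurableSet_Ioi] with s hs
    have hs0 : 0 < s := hs
    exact mul_nonneg hs0.le (h0 s hs0.le)
  gcongr

end Pool.Agent.H26.MQ
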