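import Pool.Agent.H26.MQ.Main2
import Pool.Agent.H26.MQ.Mass

/-! The main inequality for one function, conclusion. -/

set_option autoImplicit false

open MeasureTheory Set Filter Topology Complex

namespace Pool.Agent.H26.MQ

open Pool.Agent.H26.ML

/-- Averaging an inequality. -/
lemma avg_ineq {w H : ℝ → ℝ} (hw : Continuous w) (hwn : ∀ r : ℝ, 0 ≤ r → 0 ≤ w r)
    (hH : ContinuousOn H (Icc 0 (1 / 4))) {L a b : ℝ}
    (h : ∀ r : ℝ, 0 < r → r ≤ 1 / 4 → L ≤ a + r * b + H r) :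
    (∫ r in (0 : ℝ)..(1 / 4), w r) * L ≤ (∫ r in (0 : ℝ)..(1 / 4), w r) * a +
      b * (∫ r in (0 : ℝ)..(1 / 4), w r * r) + ∫ r in (0 : ℝ)..(1 / 4), w r * H r := by
  have hint1 : IntervalIntegrable (fun r => w r * a) volume 0 (1 / 4) :=
    (hw.mul continuous_const).intervalIntegrable _ _
  have hint2 : IntervalIntegrable (fun r => b * (w r * r)) volume 0 (1 / 4) :=
    (continuous_const.mul (hw.mul continuous_id)).intervalIntegrable _ _
  have hint3 : IntervalIntegrable (fun r => w r * H r) volume 0 (1 / 4) := by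
    apply ContinuousOn.intervalIntegrable
    rw [uIcc_of_le (by norm_num)]
    exact hw.continuousOn.mul hH
  rw [← intervalIntegral.integral_mul_const, ← intervalIntegral.integral_mul_const,
    ← intervalIntegral.integral_const_mul, ← intervalIntegral.integral_add hint1 hint2,
    ← intervalIntegral.integral_add (hint1.add hint2) hint3]
  refine intervalIntegral.integral_mono_on_of_le_Ioo (by norm_num)
    ((hw.mul continuous_const).intervalIntegrable _ _) ((hint1.add hint2).add hint3) ?_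
  intro r hr
  have h1 := h r hr.1 hr.2.le
  have h2 := hwn r hr.1.le
  calc w r * L ≤ w r * (a + r * b + H r) := by gcongr
    _ = _ := by ring

/-- The circle inequality, averaged over the radius. -/
lemma avg_circle {w : ℝ → ℝ} (hw : Continuous w) (hwn : ∀ r : ℝ, 0 ≤ r → 0 ≤ w r) {A A' σ Λ δ : ℝ}
    {n : ℕ} {f : ℂ → ℂ} (hf : Loc A σ n Λ f) (hA : 1 ≤ A) (hΛ : 0 ≤ Λ) (hσ : 0 < σ) (hδ0 : 0 < δ)
    (hδ4 : δ ≤ 1 / 4) (hA'1 : 1 ≤ A') (hrefl : ∀ x y : ℝ, 0 < x → x ≤ 1 / 4 → |y| ≤ 1 / 4 →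
      ‖f (-x + y * I)‖ ≤ A' * Real.exp (x * Λ) * ‖f (x + y * I)‖) (hf0 : f 0 ≠ 0) :
    (∫ r in (0 : ℝ)..(1 / 4), w r) * Real.log ‖f 0‖ ≤
      (∫ r in (0 : ℝ)..(1 / 4), w r) * (Real.log A' / 2) +
      Λ / Real.pi * (∫ r in (0 : ℝ)..(1 / 4), w r * r) +
      ∫ r in (0 : ℝ)..(1 / 4), w r * (Real.pi⁻¹ * ∫ θ in (-(Real.pi / 2))..(Real.pi / 2),
        UU δ (bb f δ) (r * Real.cos θ) (r * Real.sin θ)) := by
  have hb := hf.meas hδ4
  have hi := hf.int hA hΛ hσ hδ0.le hδ4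
  have hHc := ((H_continuousOn hb hi hδ0).mono
    (fun r hr => hr.1 : Icc (0 : ℝ) (1 / 4) ⊆ Ici 0)).const_smul Real.pi⁻¹
  have hcirc : ∀ r : ℝ, 0 < r → r ≤ 1 / 4 → Real.log ‖f 0‖ ≤ Real.log A' / 2 + r * (Λ / Real.pi) +
      (fun r : ℝ => Real.pi⁻¹ • ∫ θ in (-(Real.pi / 2))..(Real.pi / 2),
        UU δ (bb f δ) (r * Real.cos θ) (r * Real.sin θ)) r := by
    intro r hr hr4
    have h1 := circle (Loc.one_le_E hA hΛ) hf.an hf.grow hA'1 hrefl hf0 hr hr4 hδ0 hδ4 hb hi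
    rw [← mul_div_assoc]
    exact h1
  exact avg_ineq hw hwn hHc hcirc

/-- The final computation. -/
lemma final_arith {Ck I K7 K5 lA Λ N P W V L J C : ℝ} (hCk : 0 ≤ Ck) (hI : 0 ≤ I) (hK7 : 0 ≤ K7)
    (hlA : 0 ≤ lA) (hΛ : 0 ≤ Λ) (hN : 1 ≤ N) (hQ : 1 ≤ K5 + P) (hW1 : 1 / 2 ≤ W) (hW2 : W ≤ 1)
    (hV : V ≤ I / N) (hL : 0 < L) (hK5 : 0 ≤ K5)
    (hmain : W * L ≤ W * (lA / 2) + Λ / Real.pi * V + J)
    (hJ : J ≤ Ck * Real.exp (Ck * N) * (K5 + P) + Ck / N ^ 2 * (K7 * (Λ + 1)))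
    (hC : C = 2 * I / Real.pi + 2 * Ck * K7 + K5 + lA + 3 * Ck + 1) :
    L ≤ C * (Λ + 1) / N + Real.exp (C * N) * (C + P) := by
  have hπ := Real.pi_pos
  have hN0 : 0 < N := by linarith
  have hIπ : 0 ≤ 2 * I / Real.pi := by positivity
  have hCK : 0 ≤ 2 * Ck * K7 := by positivity
  have hfin1 : W * (lA / 2) ≤ lA / 2 := mul_le_of_le_one_left (by positivity) hW2
  have hfin2 : Λ / Real.pi * V ≤ Λ / Real.pi * (I / N) := by
    have : 0 ≤ Λ / Real.pi := by positivity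
    gcongr
  have hfin3 : 1 / 2 * L ≤ W * L := by gcongr
  have hall : L ≤ lA + 2 * (Λ / Real.pi * (I / N)) +
      2 * (Ck * Real.exp (Ck * N) * (K5 + P)) + 2 * (Ck / N ^ 2 * (K7 * (Λ + 1))) := by
    linarith
  refine hall.trans ?_
  have hN2 : Ck / N ^ 2 * (K7 * (Λ + 1)) ≤ Ck * K7 * (Λ + 1) / N := by
    rw [div_mul_eq_mul_div, div_le_div_iff₀ (by positivity) hN0]
    have h1 : 0 ≤ Ck * (K7 * (Λ + 1)) := by positivity
    have h2 : N ≤ N ^ 2 := by nlinarith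
    calc Ck * (K7 * (Λ + 1)) * N ≤ Ck * (K7 * (Λ + 1)) * N ^ 2 := by gcongr
      _ = _ := by ring
  have hterm1 : 2 * (Λ / Real.pi * (I / N)) + 2 * (Ck / N ^ 2 * (K7 * (Λ + 1))) ≤
      C * (Λ + 1) / N := by
    have h1 : 2 * (Λ / Real.pi * (I / N)) ≤ 2 * I / Real.pi * (Λ + 1) / N := by
      have e : 2 * (Λ / Real.pi * (I / N)) = 2 * I / Real.pi * Λ / N := by ring
      rw [e]
      gcongr
      linarith
    have h2 : 2 * I / Real.pi * (Λ + 1) / N + 2 * (Ck * K7 * (Λ + 1) / N) ≤ C * (Λ + 1) / N := by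
      have e : 2 * I / Real.pi * (Λ + 1) / N + 2 * (Ck * K7 * (Λ + 1) / N) =
          (2 * I / Real.pi + 2 * Ck * K7) * (Λ + 1) / N := by ring
      rw [e]
      gcongr
      rw [hC]
      linarith
    linarith
  have hterm2 : lA + 2 * (Ck * Real.exp (Ck * N) * (K5 + P)) ≤ Real.exp (C * N) * (C + P) := by
    have h1 : Real.exp (Ck * N) * (1 + 2 * Ck) ≤ Real.exp (C * N) := by
      have h2 : 1 + 2 * Ck ≤ Real.exp (2 * Ck * N) := by
        have h3 := Real.add_one_le_exp (2 * Ck * N)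
        have h4 : 2 * Ck ≤ 2 * Ck * N := le_mul_of_one_le_right (by positivity) hN
        linarith
      calc Real.exp (Ck * N) * (1 + 2 * Ck) ≤ Real.exp (Ck * N) * Real.exp (2 * Ck * N) := by gcongr
        _ = Real.exp (3 * Ck * N) := by rw [← Real.exp_add]; ring_nf
        _ ≤ Real.exp (C * N) := by
            apply Real.exp_le_exp.mpr
            gcongr
            rw [hC]
            linarith
    have h5 : 1 ≤ Real.exp (Ck * N) := Real.one_le_exp (by positivity)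
    have h6 : K5 + P + lA ≤ C + P := by rw [hC]; linarith
    have h7 : 0 ≤ Real.exp (Ck * N) * (1 + 2 * Ck) := by positivity
    have h11 : 0 ≤ K5 + P + lA := by linarith
    have h8 : 0 ≤ Real.exp (Ck * N) * (K5 + P) := by
      have : 0 ≤ K5 + P := by linarith
      positivity
    have h9 : lA ≤ Real.exp (Ck * N) * lA := le_mul_of_one_le_left hlA h5
    have h10 : 0 ≤ Ck * (Real.exp (Ck * N) * lA) := by positivity
    calc lA + 2 * (Ck * Real.exp (Ck * N) * (K5 + P)) ≤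
          Real.exp (Ck * N) * (1 + 2 * Ck) * (K5 + P + lA) := by
          have e : Real.exp (Ck * N) * (1 + 2 * Ck) * (K5 + P + lA) =
            Real.exp (Ck * N) * (K5 + P) + Real.exp (Ck * N) * lA +
              2 * (Ck * Real.exp (Ck * N) * (K5 + P)) + 2 * (Ck * (Real.exp (Ck * N) * lA)) := by ring
          rw [e]
          linarith
      _ ≤ Real.exp (C * N) * (C + P) := by gcongr
  linarith

/-- The kernel bound for one function. -/
lemma kt_apply (hSG : T_SG) {A σ c Ck Λ N K5 K7 : ℝ} {n : ℕ} {f : ℂ → ℂ} (hf : Loc A σ n Λ f)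
    (hA : 1 ≤ A) (hΛ : 0 ≤ Λ) (hσ : 0 < σ) (hc : σ + 2 ≤ c) (hCk0 : 0 ≤ Ck) (hN : 1 ≤ N)
    (hCk : ∀ (x δ N m : ℝ) (b : ℝ → ℝ), 0 < x → x ≤ c → 0 < δ →
      δ ≤ 1 → 1 ≤ N → 0 ≤ m → Measurable b → Integrable (fun u => poi 1 u * b u) →
      (∀ y : ℝ, -m ≤ UU δ b x y) →
      ∫ r in (0 : ℝ)..(1 / 4), N * pp (N * r) * (Real.pi⁻¹ *
          ∫ θ in (-(Real.pi / 2))..(Real.pi / 2), UU δ b (r * Real.cos θ) (r * Real.sin θ)) ≤
        Ck * Real.exp (Ck * N) * (UU δ b (x + 1) 0 + 2 * m) + Ck / N ^ 2 * ∫ u, poi 1 u * |b u|)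
    (hK5 : K5 = Real.log A + 1 + n * ((2 + 2 * c) * T1) + 2 * Real.log A)
    (hK7 : K7 = (σ + 1 / 4 + 1 / σ) * (2 * (Real.pi * (Real.log A + 1) +
      n * ((1 / σ + 2 * (σ + 1 / 4)) * T1)) + Real.pi * Real.log A)) :
    ∃ δ : ℝ, 0 < δ ∧ δ ≤ 1 / 4 ∧
      ∫ r in (0 : ℝ)..(1 / 4), N * pp (N * r) * (Real.pi⁻¹ *
          ∫ θ in (-(Real.pi / 2))..(Real.pi / 2),
            UU δ (bb f δ) (r * Real.cos θ) (r * Real.sin θ)) ≤
        Ck * Real.exp (Ck * N) * (K5 + Real.pi⁻¹ * ∫ u, poi c u * bb f 0 u) +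
          Ck / N ^ 2 * (K7 * (Λ + 1)) := by
  have hπ := Real.pi_pos
  have hlA : 0 ≤ Real.log A := Real.log_nonneg hA
  have hT1 := T1_nonneg
  obtain ⟨δ, hδ⟩ : ∃ δ : ℝ, δ = 1 / (4 * (1 + Λ)) := ⟨_, rfl⟩
  have hδ0 : 0 < δ := by rw [hδ]; positivity
  have hδ4 : δ ≤ 1 / 4 := by
    rw [hδ]
    apply one_div_le_one_div_of_le (by norm_num)
    linarith
  have hδΛ : δ * Λ ≤ 1 := by
    rw [hδ, one_div_mul_eq_div, div_le_one (by positivity)]
    linarith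
  refine ⟨δ, hδ0, hδ4, ?_⟩
  obtain ⟨x, hx⟩ : ∃ x : ℝ, x = c - 1 - 2 * δ := ⟨_, rfl⟩
  have hxσ : σ ≤ x := by rw [hx]; linarith
  have hx0 : 0 < x := by linarith
  have hxc : x ≤ c := by rw [hx]; linarith
  have hb := hf.meas hδ4
  have hi := hf.int hA hΛ hσ hδ0.le hδ4
  have hlow : ∀ y : ℝ, -Real.log A ≤ UU δ (bb f δ) x y := by
    intro y
    have h1 := (pm (Loc.one_le_E hA hΛ) hf.an hf.grow (δ := δ) (x := x) (y := y) hδ4
      (by linarith) (hf.ne_far (by simpa using hxσ))).2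
    exact (hf.log_far hA (z := (x : ℂ) + y * I) (by simpa using hxσ)).trans h1
  have hkt := hCk x δ N (Real.log A) (bb f δ) hx0 hxc hδ0 (by linarith) hN hlA hb hi hlow
  have hUx : UU δ (bb f δ) (x + 1) 0 ≤ Real.log A + 1 + n * ((2 + 2 * c) * T1) +
      Real.pi⁻¹ * ∫ u, poi c u * bb f 0 u := by
    have h1 := hf.shift hSG hA hΛ hσ hδ0 hδ4 hδΛ (c := c) (by linarith)
    refine le_trans (le_of_eq ?_) h1
    unfold UU
    congr 1
    refine integral_congr_ae ?_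
    filter_upwards with u
    rw [zero_sub, poi_even]
    congr 2
    rw [hx]; ring
  have habs' : ∫ u, poi 1 u * |bb f δ u| ≤ K7 * (Λ + 1) := by
    refine (hf.abs_int hA hΛ hσ hδ0.le hδ4).trans ?_
    rw [hK7, mul_assoc]
    have h1 : 0 ≤ (n : ℝ) * ((1 / σ + 2 * (σ + 1 / 4)) * T1) := by positivity
    generalize (n : ℝ) * ((1 / σ + 2 * (σ + 1 / 4)) * T1) = q at h1 ⊢
    have h4 : 0 ≤ σ + 1 / 4 + 1 / σ := by positivity
    refine mul_le_mul_of_nonneg_left ?_ h4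
    have e : (2 * (Real.pi * (Real.log A + 1) + q) + Real.pi * Real.log A) * (Λ + 1) -
        (2 * (Real.pi * (Real.log A + Λ) + q) + Real.pi * Real.log A) =
        Λ * (3 * (Real.pi * Real.log A)) + 2 * Real.pi + 2 * (Λ * q) := by ring
    have h5 : 0 ≤ Λ * (3 * (Real.pi * Real.log A)) + 2 * Real.pi + 2 * (Λ * q) := by positivity
    linarith
  have h1 : UU δ (bb f δ) (x + 1) 0 + 2 * Real.log A ≤
      K5 + Real.pi⁻¹ * ∫ u, poi c u * bb f 0 u := by rw [hK5]; linarith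
  refine hkt.trans (add_le_add
    (mul_le_mul_of_nonneg_left h1 ?_) (mul_le_mul_of_nonneg_left habs' ?_)) <;> positivity

/-- The main inequality for `N ≥ 24`. -/
theorem main_24 (hPB : T_PB) (hJP : T_JP) (hSG : T_SG) (hKT : T_KT) {A σ c : ℝ} (n : ℕ)
    (hA : 1 ≤ A) (hσ : 0 < σ) (hc : σ + 2 ≤ c) : ∃ C : ℝ, 1 ≤ C ∧ ∀ (Λ : ℝ) (f : ℂ → ℂ), 0 ≤ Λ →
      Loc A σ n Λ f → 1 ≤ C + Real.pi⁻¹ * ∫ u, poi c u * bb f 0 u ∧ ∀ N : ℝ, 24 ≤ N →
        0 < Real.log ‖f 0‖ → Real.log ‖f 0‖ ≤ C * (Λ + 1) / N +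
          Real.exp (C * N) * (C + Real.pi⁻¹ * ∫ u, poi c u * bb f 0 u) := by
  have hπ := Real.pi_pos
  have hc0 : 0 < c := by linarith
  have hlA : 0 ≤ Real.log A := Real.log_nonneg hA
  have hT1 := T1_nonneg
  have hI1 := I1_nonneg hPB
  obtain ⟨Ck, hCk0, hCk⟩ := hKT c
  obtain ⟨A', hA'⟩ : ∃ A' : ℝ, A' = A * (5 / 4) ^ n := ⟨_, rfl⟩
  have hA'1 : 1 ≤ A' := by
    rw [hA']; exact one_le_mul_of_one_le_of_one_le hA (one_le_pow₀ (by norm_num))
  have hlA' : 0 ≤ Real.log A' := Real.log_nonneg hA'1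
  obtain ⟨K5, hK5⟩ : ∃ K5 : ℝ, K5 = Real.log A + 1 + n * ((2 + 2 * c) * T1) + 2 * Real.log A :=
    ⟨_, rfl⟩
  have hK5' : Real.log A + 1 ≤ K5 := by
    rw [hK5]
    have : 0 ≤ (n : ℝ) * ((2 + 2 * c) * T1) := by positivity
    linarith
  obtain ⟨K7, hK7⟩ : ∃ K7 : ℝ, K7 = (σ + 1 / 4 + 1 / σ) * (2 * (Real.pi * (Real.log A + 1) +
    n * ((1 / σ + 2 * (σ + 1 / 4)) * T1)) + Real.pi * Real.log A) := ⟨_, rfl⟩
  have hK70 : 0 ≤ K7 := by rw [hK7]; positivity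
  obtain ⟨C, hC⟩ : ∃ C : ℝ, C = 2 * I1 / Real.pi + 2 * Ck * K7 + K5 + Real.log A' + 3 * Ck + 1 :=
    ⟨_, rfl⟩
  have hI1π : 0 ≤ 2 * I1 / Real.pi := by positivity
  have hCK : 0 ≤ 2 * Ck * K7 := by positivity
  refine ⟨C, by linarith, fun Λ f hΛ hf => ?_⟩
  have hPge : -Real.log A ≤ Real.pi⁻¹ * ∫ u, poi c u * bb f 0 u :=
    hf.P_ge hA hΛ (by linarith) hc0
  refine ⟨by linarith, fun N hN hL0 => ?_⟩
  have hN0 : 0 < N := by linarith
  have hf0 : f 0 ≠ 0 := by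
    intro h0
    rw [h0, norm_zero, Real.log_zero] at hL0
    exact lt_irrefl _ hL0
  obtain ⟨δ, hδ0, hδ4, hJ⟩ := kt_apply hSG hf hA hΛ hσ hc hCk0 (show 1 ≤ N by linarith) hCk hK5 hK7
  have hrefl : ∀ x y : ℝ, 0 < x → x ≤ 1 / 4 → |y| ≤ 1 / 4 →
      ‖f (-x + y * I)‖ ≤ A' * Real.exp (x * Λ) * ‖f (x + y * I)‖ := by
    intro x y hx0 hx4 hy
    refine (hf.refl x y hx0 hx4).trans ?_
    have h1 : (1 + |y|) ^ n ≤ (5 / 4) ^ n := by
      have := abs_nonneg y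
      gcongr
      linarith
    calc A * Real.exp (x * Λ) * (1 + |y|) ^ n * ‖f (x + y * I)‖ ≤
          A * Real.exp (x * Λ) * (5 / 4) ^ n * ‖f (x + y * I)‖ := by gcongr
      _ = _ := by rw [hA']; ring
  have hppc : Continuous pp := hPB.2.2.2.2.1
  have hw : Continuous fun r : ℝ => N * pp (N * r) := by fun_prop
  have hwn : ∀ r : ℝ, 0 ≤ r → 0 ≤ N * pp (N * r) := by
    intro r hr
    have := hPB.1 (N * r) (by positivity)
    positivity
  obtain ⟨hW1, hW2⟩ := mass hPB hJP hN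
  have hV := moment hPB hN0
  have hmain := avg_circle hw hwn hf hA hΛ hσ hδ0 hδ4 hA'1 hrefl hf0
  exact final_arith hCk0 hI1 hK70 hlA' hΛ (by linarith) (by linarith) hW1 hW2 hV hL0 (by linarith)
    hmain hJ hC

/-- **The main inequality.** -/
theorem main_ineq (hPB : T_PB) (hJP : T_JP) (hSG : T_SG) (hKT : T_KT) {A σ c : ℝ} (n : ℕ)
    (hA : 1 ≤ A) (hσ : 0 < σ) (hc : σ + 2 ≤ c) : ∃ C : ℝ, 1 ≤ C ∧ ∀ (Λ : ℝ) (f : ℂ → ℂ), 0 ≤ Λ →
      Loc A σ n Λ f → 1 ≤ C + Real.pi⁻¹ * ∫ u, poi c u * bb f 0 u ∧ ∀ N : ℝ, 1 ≤ N →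
        ‖f 0‖ ≤ Real.exp (C * (Λ + 1) / N +
          Real.exp (C * N) * (C + Real.pi⁻¹ * ∫ u, poi c u * bb f 0 u)) := by
  obtain ⟨C, hC1, hC⟩ := main_24 hPB hJP hSG hKT n hA hσ hc
  refine ⟨24 * C, by linarith, fun Λ f hΛ hf => ?_⟩
  obtain ⟨h1, h2⟩ := hC Λ f hΛ hf
  set P : ℝ := Real.pi⁻¹ * ∫ u, poi c u * bb f 0 u with hP
  refine ⟨by linarith, fun N hN => ?_⟩
  have hN0 : 0 < N := by linarith
  have hR1 : 0 ≤ 24 * C * (Λ + 1) / N := by positivity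
  have hR2 : 0 ≤ Real.exp (24 * C * N) * (24 * C + P) := by
    have : 0 ≤ 24 * C + P := by linarith
    positivity
  by_cases hL : 0 < Real.log ‖f 0‖
  · have hpos : 0 < ‖f 0‖ := by
      rcases (norm_nonneg (f 0)).eq_or_lt with h | h
      · rw [← h, Real.log_zero] at hL
        exact absurd hL (lt_irrefl _)
      · exact h
    rw [← Real.log_le_iff_le_exp hpos]
    have h3 := h2 (24 * N) (by linarith) hL
    have e1 : C * (24 * N) = 24 * C * N := by ring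
    rw [e1] at h3
    have h4 : C * (Λ + 1) / (24 * N) ≤ 24 * C * (Λ + 1) / N := by
      rw [div_le_div_iff₀ (by positivity) hN0]
      have : 0 ≤ C * (Λ + 1) * N := by positivity
      nlinarith
    have h5 : Real.exp (24 * C * N) * (C + P) ≤ Real.exp (24 * C * N) * (24 * C + P) := by
      gcongr
      linarith
    linarith
  · push Not at hL
    rcases (norm_nonneg (f 0)).eq_or_lt with h | h
    · rw [← h]
      exact (Real.exp_pos _).le
    · calc ‖f 0‖ = Real.exp (Real.log ‖f 0‖) := (Real.exp_log h).symm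
        _ ≤ _ := Real.exp_le_exp.mpr (by linarith)

end Pool.Agent.H26.MQ
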