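import Pool.Agent.H26.MQ.Main3
import Pool.Agent.H26.ML.Orders
import Pool.Agent.H61.NL.Inst

/-! Families of `L`-data satisfy the hypotheses of the main inequality. -/

set_option autoImplicit false

open MeasureTheory Set Filter Topology Complex

namespace Pool.Agent.H26.MQ

open Pool.Agent.H26.ML Pool.Agent.H23.GLM Pool.Agent.H23.GLH Pool.Agent.H23.DZ
open Pool.Agent.H61.NL (farLow)
open Pool.Agent.H61.Ray (norm_L_F)

variable {m : ℕ}

/-- The family satisfies the hypotheses at every height. -/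
theorem exists_loc {S : Set (LData m)} (hM : Molteni S) (hF : FarBounds S) :
    ∃ A σ : ℝ, 1 ≤ A ∧ 0 < σ ∧ ∀ π ∈ S, ∀ t : ℝ,
      Loc A σ m (Real.log (π.X t)) (fun z => π.F (1 / 2 + t * I + z)) := by
  obtain ⟨A₀, hA₀⟩ := exists_adm hM
  obtain ⟨σ₁, c₁, hc₁, hlow⟩ := farLow hF
  have hA1 := hA₀.one_le_A
  set A := max A₀ (1 / c₁) with hA
  set σ := max σ₁ 1 with hσ
  have hAA : A₀ ≤ A := le_max_left _ _
  refine ⟨A, σ, hA1.trans hAA, lt_of_lt_of_le one_pos (le_max_right _ _), fun π hπ t => ?_⟩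
  have hX1 := π.one_le_X t
  have hX0 : 0 < π.X t := by linarith
  have hre : ∀ z : ℂ, (1 / 2 + t * I + z).re = 1 / 2 + z.re := by intro z; simp
  have him : ∀ z : ℂ, (1 / 2 + t * I + z).im = t + z.im := by intro z; simp
  have hXs : ∀ v : ℝ, π.C * (1 + |t + v|) ^ m ≤ π.X t * (1 + |v|) ^ m := fun v =>
    qcomp (by linarith [π.one_le_C]) m t v
  refine ⟨?_, ?_, ?_, ?_⟩
  · intro z hz
    have hz' : -(1 / 4) ≤ z.re := hz
    have h1 : AnalyticAt ℂ π.F (1 / 2 + t * I + z) := F_analytic π _ (by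
      show 0 < (1 / 2 + t * I + z).re
      rw [hre]; linarith)
    exact h1.fun_comp (f := fun z : ℂ => 1 / 2 + t * I + z) (by fun_prop)
  · intro z hz
    have h1 := hA₀.grow ⟨π, hπ⟩ (1 / 2 + t * I + z) (by rw [hre]; linarith)
    rw [pow_one, him] at h1
    simp only at h1
    have h2 := hXs z.im
    rw [Real.exp_log hX0, mul_assoc]
    refine h1.trans ?_
    have h3 : 0 ≤ π.X t * (1 + |z.im|) ^ m := by positivity
    calc A₀ * (π.C * (1 + |t + z.im|) ^ m) ≤ A₀ * (π.X t * (1 + |z.im|) ^ m) := by gcongr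
      _ ≤ _ := by gcongr
  · intro x y hx hx4
    have h1 := hA₀.refl ⟨π, hπ⟩ x (t + y) hx hx4
    simp only at h1
    have e1 : (1 / 2 - x + ((t + y : ℝ) : ℂ) * I : ℂ) = 1 / 2 + t * I + (-x + y * I) := by
      push_cast; ring
    have e2 : (1 / 2 + x + ((t + y : ℝ) : ℂ) * I : ℂ) = 1 / 2 + t * I + (x + y * I) := by
      push_cast; ring
    rw [e1, e2] at h1
    refine h1.trans ?_
    have hy := abs_nonneg y
    have h2 : (π.C * (1 + |t + y|) ^ m) ^ x ≤ Real.exp (x * Real.log (π.X t)) * (1 + |y|) ^ m := by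
      have hC := π.one_le_C
      have hty := abs_nonneg (t + y)
      calc (π.C * (1 + |t + y|) ^ m) ^ x ≤ (π.X t * (1 + |y|) ^ m) ^ x :=
            Real.rpow_le_rpow (by positivity) (hXs y) hx.le
        _ = π.X t ^ x * ((1 + |y|) ^ m) ^ x := Real.mul_rpow (by positivity) (by positivity)
        _ ≤ π.X t ^ x * ((1 + |y|) ^ m) ^ (1:ℝ) := by
            have h3 : (1:ℝ) ≤ (1 + |y|) ^ m := one_le_pow₀ (by linarith)
            gcongr
            linarith
        _ = _ := by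
            rw [Real.rpow_one, Real.rpow_def_of_pos hX0, mul_comm (Real.log (π.X t)) x]
    have hn := norm_nonneg (π.F (1 / 2 + t * I + (x + y * I)))
    have hA0 : 0 ≤ A₀ := by linarith
    calc A₀ * (π.C * (1 + |t + y|) ^ m) ^ x * ‖π.F (1 / 2 + t * I + (x + y * I))‖
        ≤ A₀ * (Real.exp (x * Real.log (π.X t)) * (1 + |y|) ^ m) *
          ‖π.F (1 / 2 + t * I + (x + y * I))‖ := by gcongr
      _ ≤ A * (Real.exp (x * Real.log (π.X t)) * (1 + |y|) ^ m) *
          ‖π.F (1 / 2 + t * I + (x + y * I))‖ := by gcongr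
      _ = _ := by ring
  · intro z hz
    have h1 : c₁ ≤ ‖π.F (1 / 2 + t * I + z)‖ := hlow ⟨π, hπ⟩ (1 / 2 + t * I + z) (by
      rw [hre]
      have := le_max_left σ₁ 1
      linarith)
    have h2 : 1 / c₁ ≤ A := le_max_right _ _
    calc (1 : ℝ) = 1 / c₁ * c₁ := by field_simp
      _ ≤ A * ‖π.F (1 / 2 + t * I + z)‖ := by gcongr

end Pool.Agent.H26.MQ
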