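import Pool.Agent.H26.MQ.Semi

/-! The main inequality for one function. -/

set_option autoImplicit false

open MeasureTheory Set Filter Topology Complex

namespace Pool.Agent.H26.MQ

open Pool.Agent.H26.ML

/-- The hypotheses on the function `f(z) = L(1/2 + it + z)`. -/
structure Loc (A σ : ℝ) (n : ℕ) (Λ : ℝ) (f : ℂ → ℂ) : Prop where
  an : AnalyticOnNhd ℂ f {z | -(1 / 4) ≤ z.re}
  grow : ∀ z : ℂ, -(1 / 4) ≤ z.re → ‖f z‖ ≤ A * Real.exp Λ * (1 + |z.im|) ^ n
  refl : ∀ x y : ℝ, 0 < x → x ≤ 1 / 4 →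
    ‖f (-x + y * I)‖ ≤ A * Real.exp (x * Λ) * (1 + |y|) ^ n * ‖f (x + y * I)‖
  far : ∀ z : ℂ, σ ≤ z.re → 1 ≤ A * ‖f z‖

section

variable {A σ Λ δ : ℝ} {n : ℕ} {f : ℂ → ℂ}

/-- The logarithm on the line `Re z = -δ`. -/
noncomputable def bb (f : ℂ → ℂ) (δ : ℝ) (u : ℝ) : ℝ := Real.log ‖f (-δ + u * I)‖

/-- The majorant of the logarithm. -/
noncomputable def be (A Λ : ℝ) (n : ℕ) (u : ℝ) : ℝ := Real.log A + Λ + n * Real.log (1 + |u|)

lemma Loc.ne_far (h : Loc A σ n Λ f) {z : ℂ} (hz : σ ≤ z.re) : f z ≠ 0 := by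
  intro h0
  have h1 := h.far z hz
  rw [h0, norm_zero, mul_zero] at h1
  linarith

lemma Loc.one_le_E (hA : 1 ≤ A) (hΛ : 0 ≤ Λ) : 1 ≤ A * Real.exp Λ :=
  one_le_mul_of_one_le_of_one_le hA (Real.one_le_exp hΛ)

lemma Loc.log_far (h : Loc A σ n Λ f) (hA : 1 ≤ A) {z : ℂ} (hz : σ ≤ z.re) :
    -Real.log A ≤ Real.log ‖f z‖ := by
  have h1 := h.far z hz
  have h2 : 0 < ‖f z‖ := norm_pos_iff.mpr (h.ne_far hz)
  rw [neg_le_iff_add_nonneg, ← Real.log_mul h2.ne' (by linarith), mul_comm]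
  exact Real.log_nonneg h1

lemma be_nonneg (hA : 1 ≤ A) (hΛ : 0 ≤ Λ) (u : ℝ) : 0 ≤ be A Λ n u := by
  have h1 : 0 ≤ Real.log A := Real.log_nonneg hA
  have h2 : 0 ≤ Real.log (1 + |u|) := Real.log_nonneg (by have := abs_nonneg u; linarith)
  unfold be
  positivity

lemma Loc.log_le (h : Loc A σ n Λ f) (hA : 1 ≤ A) (hΛ : 0 ≤ Λ) {z : ℂ} (hz : -(1 / 4) ≤ z.re) :
    Real.log ‖f z‖ ≤ be A Λ n z.im := by
  have h3 := abs_nonneg z.im
  rcases (norm_nonneg (f z)).eq_or_lt with h0 | h0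
  · rw [← h0, Real.log_zero]
    exact be_nonneg hA hΛ _
  · have h1 := Real.log_le_log h0 (h.grow z hz)
    rw [Real.log_mul (by positivity) (by positivity), Real.log_mul (by positivity) (by positivity),
      Real.log_exp, Real.log_pow] at h1
    exact h1

lemma Loc.cont (h : Loc A σ n Λ f) (hδ : δ ≤ 1 / 4) : Continuous fun u : ℝ => f (-δ + u * I) := by
  rw [continuous_iff_continuousAt]
  intro u
  have h1 : ContinuousAt f (-δ + u * I) := (h.an _ (by
    show -(1 / 4) ≤ (-(δ : ℂ) + u * I).re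
    simp; linarith)).continuousAt
  exact ContinuousAt.comp (f := fun u : ℝ => (-δ + u * I : ℂ)) h1 (by fun_prop)

lemma Loc.meas (h : Loc A σ n Λ f) (hδ : δ ≤ 1 / 4) : Measurable (bb f δ) :=
  Real.measurable_log.comp (h.cont hδ).norm.measurable

lemma Loc.int (h : Loc A σ n Λ f) (hA : 1 ≤ A) (hΛ : 0 ≤ Λ) (hσ : 0 < σ) (hδ0 : 0 ≤ δ)
    (hδ : δ ≤ 1 / 4) : Integrable fun u => poi 1 u * bb f δ u := by
  have h1 := (pm (Loc.one_le_E hA hΛ) h.an h.grow (δ := δ) (x := σ) (y := 0) hδ (by linarith)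
    (h.ne_far (by simp))).1
  have ha : 0 < σ + δ := by linarith
  refine (h1.norm.const_mul ((σ + δ) + 1 / (σ + δ))).mono' ?_ ?_
  · exact ((poi_continuous one_pos).measurable.mul (h.meas hδ)).aestronglyMeasurable
  · filter_upwards with u
    have h2 := poi_one_le (u := u) ha
    have h3 := poi_pos ha (0 - u)
    have h4 := poi_pos one_pos u
    rw [norm_mul, norm_mul, Real.norm_of_nonneg h4.le, Real.norm_of_nonneg h3.le, zero_sub, poi_even,
      ← mul_assoc]
    have h5 : 0 ≤ ‖bb f δ u‖ := norm_nonneg _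
    exact mul_le_mul_of_nonneg_right h2 h5

lemma be_int {a : ℝ} (ha : 0 < a) : Integrable fun u => poi a u * be A Λ n u := by
  have h1 := (poi_integrable ha).const_mul (Real.log A + Λ - n)
  have h2 := (poil_integrable ha).const_mul (n : ℝ)
  refine (h1.add h2).congr ?_
  filter_upwards with u
  simp only [Pi.add_apply]
  unfold poil be
  ring

/-- Constants. -/
noncomputable def T1 : ℝ := ∫ u, poil 1 u

lemma T1_nonneg : 0 ≤ T1 := integral_nonneg fun u => poil_nonneg one_pos u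

lemma poil_le {a₀ a₁ a u : ℝ} (h0 : 0 < a₀) (h1 : a₀ ≤ a) (h2 : a ≤ a₁) :
    poi a u * Real.log (1 + |u|) ≤ (1 / a₀ + 2 * a₁) * poil 1 u := by
  have h3 := poi_le (y := 0) (Y := 0) (u := u) h0 h1 h2 (by simp)
  rw [zero_sub, poi_even] at h3
  have h4 : 0 ≤ Real.log (1 + |u|) := Real.log_nonneg (by have := abs_nonneg u; linarith)
  have h5 := poi_pos one_pos u
  have h6 : 0 ≤ 1 / a₀ + 2 * a₁ := by
    have : 0 ≤ a₁ := by linarith
    positivity
  calc poi a u * Real.log (1 + |u|) ≤ ((1 + 2 * (0:ℝ) ^ 2) / a₀ + 2 * a₁) * poi 1 u *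
        Real.log (1 + |u|) := by gcongr
    _ = (1 / a₀ + 2 * a₁) * (poi 1 u * Real.log (1 + |u|)) := by ring
    _ ≤ (1 / a₀ + 2 * a₁) * poil 1 u := by
        unfold poil
        gcongr
        linarith

lemma be_integral_le {a₀ a₁ a : ℝ} (h0 : 0 < a₀) (h1 : a₀ ≤ a) (h2 : a ≤ a₁) :
    ∫ u, poi a u * be A Λ n u ≤ Real.pi * (Real.log A + Λ) + n * ((1 / a₀ + 2 * a₁) * T1) := by
  have ha : 0 < a := by linarith
  have hl : Integrable fun u => poi a u * Real.log (1 + |u|) := by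
    have h3 := (poil_integrable ha).sub (poi_integrable ha)
    refine h3.congr ?_
    filter_upwards with u
    simp only [Pi.sub_apply]
    unfold poil
    ring
  have e1 : ∀ u, poi a u * be A Λ n u = (Real.log A + Λ) * poi a u +
      n * (poi a u * Real.log (1 + |u|)) := by
    intro u
    unfold be
    ring
  simp_rw [e1]
  rw [integral_add ((poi_integrable ha).const_mul _) (hl.const_mul _), integral_const_mul,
    integral_const_mul, poi_integral ha]
  have h4 : ∫ u, poi a u * Real.log (1 + |u|) ≤ (1 / a₀ + 2 * a₁) * T1 := by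
    unfold T1
    rw [← integral_const_mul]
    exact integral_mono hl ((poil_integrable one_pos).const_mul _) fun u => poil_le h0 h1 h2
  have h5 : (n : ℝ) * ∫ u, poi a u * Real.log (1 + |u|) ≤ n * ((1 / a₀ + 2 * a₁) * T1) := by
    gcongr
  linarith

/-- The absolute integral of the logarithm. -/
lemma Loc.abs_int (h : Loc A σ n Λ f) (hA : 1 ≤ A) (hΛ : 0 ≤ Λ) (hσ : 0 < σ) (hδ0 : 0 ≤ δ)
    (hδ : δ ≤ 1 / 4) : ∫ u, poi 1 u * |bb f δ u| ≤ (σ + 1 / 4 + 1 / σ) *
      (2 * (Real.pi * (Real.log A + Λ) + n * ((1 / σ + 2 * (σ + 1 / 4)) * T1)) +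
        Real.pi * Real.log A) := by
  have hπ := Real.pi_pos
  have ha : 0 < σ + δ := by linarith
  have hlA : 0 ≤ Real.log A := Real.log_nonneg hA
  have hb := h.meas hδ
  have hi := h.int hA hΛ hσ hδ0 hδ
  have hia : Integrable fun u => poi (σ + δ) u * bb f δ u := by
    have := UU_integrable hb hi ha 0
    refine this.congr ?_
    filter_upwards with u
    rw [zero_sub, poi_even]
  have hbe := be_int (A := A) (Λ := Λ) (n := n) ha
  have hpm := (pm (Loc.one_le_E hA hΛ) h.an h.grow (δ := δ) (x := σ) (y := 0) hδ (by linarith)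
    (h.ne_far (by simp))).2
  have hfar := h.log_far hA (z := (σ : ℂ) + (0 : ℝ) * I) (by simp)
  have hlow : -(Real.pi * Real.log A) ≤ ∫ u, poi (σ + δ) u * bb f δ u := by
    have h1 : UU δ (fun u : ℝ => Real.log ‖f (-δ + u * I)‖) σ 0 =
        Real.pi⁻¹ * ∫ u, poi (σ + δ) u * bb f δ u := by
      unfold UU bb
      congr 1
      refine integral_congr_ae ?_
      filter_upwards with u
      rw [zero_sub, poi_even]
    rw [h1] at hpm
    have h2 := hfar.trans hpm
    rw [← div_eq_inv_mul, le_div_iff₀ hπ] at h2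
    linarith
  have habs : ∀ u, |bb f δ u| ≤ 2 * be A Λ n u - bb f δ u := by
    intro u
    have h1 : bb f δ u ≤ be A Λ n u := by
      have := h.log_le hA hΛ (z := (-δ + u * I : ℂ)) (by simp; linarith)
      simpa [bb] using this
    have h2 := be_nonneg (n := n) hA hΛ u
    rcases abs_cases (bb f δ u) with ⟨h3, _⟩ | ⟨h3, _⟩ <;> rw [h3] <;> linarith
  have hI1 : ∫ u, poi (σ + δ) u * |bb f δ u| ≤
      2 * (∫ u, poi (σ + δ) u * be A Λ n u) - ∫ u, poi (σ + δ) u * bb f δ u := by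
    rw [← integral_const_mul, ← integral_sub (hbe.const_mul 2) hia]
    refine integral_mono ?_ ((hbe.const_mul 2).sub hia) fun u => ?_
    · refine hia.abs.congr ?_
      filter_upwards with u
      rw [abs_mul, abs_of_pos (poi_pos ha u)]
    · have h1 := habs u
      have h2 := poi_pos ha u
      simp only
      nlinarith
  have hI2 := be_integral_le (A := A) (Λ := Λ) (n := n) hσ (show σ ≤ σ + δ by linarith)
    (show σ + δ ≤ σ + 1 / 4 by linarith)
  have hI3 : ∫ u, poi 1 u * |bb f δ u| ≤ (σ + 1 / 4 + 1 / σ) * ∫ u, poi (σ + δ) u * |bb f δ u| := by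
    rw [← integral_const_mul]
    have e1 : Integrable fun u => poi (σ + δ) u * |bb f δ u| := by
      refine hia.abs.congr ?_
      filter_upwards with u
      rw [abs_mul, abs_of_pos (poi_pos ha u)]
    refine integral_mono ?_ (e1.const_mul _) fun u => ?_
    · refine hi.abs.congr ?_
      filter_upwards with u
      rw [abs_mul, abs_of_pos (poi_pos one_pos u)]
    · have h1 := poi_one_le (u := u) ha
      have h2 := poi_pos ha u
      have h3 : σ + δ + 1 / (σ + δ) ≤ σ + 1 / 4 + 1 / σ := by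
        have : 1 / (σ + δ) ≤ 1 / σ := one_div_le_one_div_of_le hσ (by linarith)
        linarith
      have h4 := abs_nonneg (bb f δ u)
      simp only
      rw [← mul_assoc]
      gcongr
      exact h1.trans (by gcongr)
  refine hI3.trans ?_
  have : 0 < 1 / σ := by positivity
  gcongr
  linarith

end

end Pool.Agent.H26.MQ
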