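import Pool.Agent.H26.MQ.Main

/-! The main inequality for one function, second part. -/

set_option autoImplicit false

open MeasureTheory Set Filter Topology Complex

namespace Pool.Agent.H26.MQ

open Pool.Agent.H26.ML

section

variable {A σ Λ δ : ℝ} {n : ℕ} {f : ℂ → ℂ}

lemma Loc.ae_ne (h : Loc A σ n Λ f) (hδ : δ ≤ 1 / 4) : ∀ᵐ u : ℝ, f (-δ + u * I) ≠ 0 := by
  refine line_ae_ne (convex_halfSpace_re_ge (-(1 / 4)))
    (isClosed_le continuous_const Complex.continuous_re) h.an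
    (x := ((max σ 0 : ℝ) : ℂ)) ?_ (h.ne_far (by simp)) (fun u => ?_)
  · show -(1 / 4) ≤ ((max σ 0 : ℝ) : ℂ).re
    rw [Complex.ofReal_re]
    have := le_max_right σ 0
    linarith
  · show -(1 / 4) ≤ (-(δ : ℂ) + u * I).re
    simp; linarith

/-- The Poisson integral from the line `Re z = -δ` in terms of the one from the imaginary axis. -/
lemma Loc.shift (hSG : T_SG) (h : Loc A σ n Λ f) (hA : 1 ≤ A) (hΛ : 0 ≤ Λ) (hσ : 0 < σ)
    (hδ0 : 0 < δ) (hδ : δ ≤ 1 / 4) (hδΛ : δ * Λ ≤ 1) {c : ℝ} (hc : 1 ≤ c) :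
    Real.pi⁻¹ * ∫ u, poi (c - δ) u * bb f δ u ≤ Real.log A + 1 + n * ((2 + 2 * c) * T1) +
      Real.pi⁻¹ * ∫ u, poi c u * bb f 0 u := by
  have hπ := Real.pi_pos
  have hca : 0 < c - δ := by linarith
  have hlA : 0 ≤ Real.log A := Real.log_nonneg hA
  have hb := h.meas hδ
  have hi := h.int hA hΛ hσ hδ0.le hδ
  have hb0 := h.meas (δ := 0) (by norm_num)
  have hi0 := h.int hA hΛ hσ le_rfl (by norm_num)
  obtain ⟨hs1, hs2⟩ := semigroup_UU hSG hb0 hi0 hca hδ0
  rw [sub_add_cancel] at hs2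
  have hbe := be_int (A := A) (Λ := 1) (n := n) hca
  have hib : Integrable fun u => poi (c - δ) u * bb f δ u := by
    have := UU_integrable hb hi hca 0
    refine this.congr ?_
    filter_upwards with u
    rw [zero_sub, poi_even]
  have hpt : ∀ᵐ u : ℝ, bb f δ u ≤ be A 1 n u + Real.pi⁻¹ * ∫ v, poi δ (u - v) * bb f 0 v := by
    have h1 := h.ae_ne hδ
    have h2 := h.ae_ne (δ := -δ) (by linarith)
    filter_upwards [h1, h2] with u h1 h2
    have h3 : ((-(-δ : ℝ) : ℝ) : ℂ) + u * I = (δ : ℂ) + u * I := by push_cast; ring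
    have h2' : f ((δ : ℂ) + u * I) ≠ 0 := by
      rw [← h3]
      simpa using h2
    have hpm := (pm (Loc.one_le_E hA hΛ) h.an h.grow (δ := 0) (x := δ) (y := u) (by norm_num)
      (by linarith) h2').2
    have hR := h.refl δ u hδ0 hδ
    have hpos1 : 0 < ‖f ((δ : ℂ) + u * I)‖ := norm_pos_iff.mpr h2'
    have hpos2 : 0 < ‖f (-(δ : ℂ) + u * I)‖ := norm_pos_iff.mpr h1
    have hu := abs_nonneg u
    have hlog := Real.log_le_log hpos2 hR
    rw [Real.log_mul (by positivity) hpos1.ne', Real.log_mul (by positivity) (by positivity),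
      Real.log_mul (by positivity) (by positivity), Real.log_exp, Real.log_pow] at hlog
    have e1 : UU 0 (fun v : ℝ => Real.log ‖f (-((0 : ℝ) : ℂ) + v * I)‖) δ u =
        Real.pi⁻¹ * ∫ v, poi δ (u - v) * bb f 0 v := by
      unfold UU bb
      rw [add_zero]
    rw [e1] at hpm
    have e2 : bb f δ u = Real.log ‖f (-(δ : ℂ) + u * I)‖ := rfl
    rw [e2]
    unfold be
    linarith
  have hle : ∫ u, poi (c - δ) u * bb f δ u ≤ ∫ u, (poi (c - δ) u * be A 1 n u +
      Real.pi⁻¹ * (poi (c - δ) u * ∫ v, poi δ (u - v) * bb f 0 v)) := by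
    refine integral_mono_ae hib (hbe.add (hs1.const_mul _)) ?_
    filter_upwards [hpt] with u hu
    have h2 := poi_pos hca u
    calc poi (c - δ) u * bb f δ u ≤ poi (c - δ) u * (be A 1 n u +
          Real.pi⁻¹ * ∫ v, poi δ (u - v) * bb f 0 v) := by gcongr
      _ = _ := by ring
  rw [integral_add hbe (hs1.const_mul _), integral_const_mul, hs2, ← mul_assoc,
    inv_mul_cancel₀ hπ.ne', one_mul] at hle
  have hI := be_integral_le (A := A) (Λ := 1) (n := n) (show (0:ℝ) < 1 / 2 by norm_num)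
    (show 1 / 2 ≤ c - δ by linarith) (show c - δ ≤ c by linarith)
  have h6 : Real.pi⁻¹ * (Real.pi * (Real.log A + 1) + n * ((1 / (1 / 2) + 2 * c) * T1)) ≤
      Real.log A + 1 + n * ((2 + 2 * c) * T1) := by
    rw [mul_add, ← mul_assoc, inv_mul_cancel₀ hπ.ne', one_mul]
    have h7 : Real.pi⁻¹ ≤ 1 := by
      apply inv_le_one_of_one_le₀
      linarith [Real.pi_gt_three]
    have h8 : 0 ≤ (n : ℝ) * ((2 + 2 * c) * T1) := by
      have := T1_nonneg
      positivity
    have h9 : (1 : ℝ) / (1 / 2) = 2 := by norm_num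
    rw [h9]
    nlinarith
  have h10 : 0 < Real.pi⁻¹ := by positivity
  calc Real.pi⁻¹ * ∫ u, poi (c - δ) u * bb f δ u ≤
        Real.pi⁻¹ * ((Real.pi * (Real.log A + 1) + n * ((1 / (1 / 2) + 2 * c) * T1)) +
          ∫ u, poi c u * bb f 0 u) := by
        gcongr
        linarith
    _ ≤ _ := by
        rw [mul_add]
        linarith

/-- Lower bound for the Poisson integral. -/
lemma Loc.P_ge (h : Loc A σ n Λ f) (hA : 1 ≤ A) (hΛ : 0 ≤ Λ) {c : ℝ} (hc : σ ≤ c) (hc0 : 0 < c) :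
    -Real.log A ≤ Real.pi⁻¹ * ∫ u, poi c u * bb f 0 u := by
  have hpm := (pm (Loc.one_le_E hA hΛ) h.an h.grow (δ := 0) (x := c) (y := 0) (by norm_num)
    (by linarith) (h.ne_far (by simpa using hc))).2
  have hfar := h.log_far hA (z := (c : ℂ) + (0 : ℝ) * I) (by simpa using hc)
  refine hfar.trans (hpm.trans (le_of_eq ?_))
  unfold UU bb
  congr 1
  refine integral_congr_ae ?_
  filter_upwards with u
  rw [zero_sub, poi_even, add_zero]

end

end Pool.Agent.H26.MQ
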